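import Mathlib

set_option autoImplicit false

/-! Multisets of natural numbers: a Burnside-type inequality for down-closed families. -/

namespace Pool.Agent.Q57.SL

open Multiset Finset
open scoped Classical

/-- multisets of cardinality `n` with all elements `< B`. -/
noncomputable def MS (B : ℕ) : ℕ → Finset (Multiset ℕ)
  | 0 => {0}
  | n + 1 => ((Finset.range B) ×ˢ MS B n).image (fun p => p.1 ::ₘ p.2)

theorem mem_MS {B n : ℕ} {s : Multiset ℕ} :
    s ∈ MS B n ↔ Multiset.card s = n ∧ ∀ x ∈ s, x < B := by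
  induction n generalizing s with
  | zero =>
    simp only [MS, Finset.mem_singleton, Multiset.card_eq_zero]
    constructor
    · rintro rfl; simp
    · rintro ⟨h, -⟩; exact h
  | succ n ih =>
    simp only [MS, Finset.mem_image, Finset.mem_product, Finset.mem_range, Prod.exists]
    constructor
    · rintro ⟨a, t, ⟨ha, ht⟩, rfl⟩
      obtain ⟨h1, h2⟩ := ih.1 ht
      refine ⟨by simp [h1], ?_⟩
      intro x hx
      rcases Multiset.mem_cons.1 hx with rfl | hx
      · exact ha
      · exact h2 x hx
    · rintro ⟨h1, h2⟩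
      obtain ⟨a, ha⟩ := Multiset.card_pos_iff_exists_mem.1 (by omega : 0 < Multiset.card s)
      obtain ⟨t, rfl⟩ := Multiset.exists_cons_of_mem ha
      refine ⟨a, t, ⟨h2 a ha, ih.2 ⟨by simpa using h1, fun x hx => h2 x (Multiset.mem_cons_of_mem hx)⟩⟩, rfl⟩

theorem card_MS_le (B n : ℕ) : (MS B n).card ≤ B ^ n := by
  induction n with
  | zero => simp [MS]
  | succ n ih =>
    calc (MS B (n+1)).card ≤ ((Finset.range B) ×ˢ MS B n).card := Finset.card_image_le
      _ = B * (MS B n).card := by rw [Finset.card_product, Finset.card_range]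
      _ ≤ B * B ^ n := Nat.mul_le_mul_left _ ih
      _ = B ^ (n+1) := by ring

/-- number of multisets of card `n`, elements `< B`, in `S`. -/
noncomputable def m (B n : ℕ) (S : Set (Multiset ℕ)) : ℕ := ((MS B n).filter (· ∈ S)).card

/-- number of sequences of length `n`, entries `< B`, whose multiset is in `S`. -/
noncomputable def u (B : ℕ) : ℕ → Set (Multiset ℕ) → ℕ
  | 0, S => if (0 : Multiset ℕ) ∈ S then 1 else 0
  | n + 1, S => ∑ v ∈ Finset.range B, u B n {s | v ::ₘ s ∈ S}

theorem u_mono (B n : ℕ) : ∀ {S T : Set (Multiset ℕ)}, S ⊆ T → u B n S ≤ u B n T := by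
  induction n with
  | zero =>
    intro S T h
    simp only [u]
    split_ifs with h1 h2 <;> first | omega | exact absurd (h h1) h2
  | succ n ih =>
    intro S T h
    simp only [u]
    exact Finset.sum_le_sum (fun v _ => ih (fun s hs => h hs))

/-- double counting identity -/
theorem succ_mul_m (B n : ℕ) (S : Set (Multiset ℕ)) :
    (n + 1) * m B (n+1) S = ∑ v ∈ Finset.range B, m B n {s | v ::ₘ s ∈ S}
      + ∑ v ∈ Finset.range B, ∑ s ∈ (MS B n).filter (fun s => v ::ₘ s ∈ S), Multiset.count v s := by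
  have h1 : (n + 1) * m B (n+1) S
      = ∑ t ∈ (MS B (n+1)).filter (· ∈ S), ∑ v ∈ Finset.range B, Multiset.count v t := by
    have : ∀ t ∈ (MS B (n+1)).filter (· ∈ S), ∑ v ∈ Finset.range B, Multiset.count v t = n + 1 := by
      intro t ht
      obtain ⟨h2, h3⟩ := mem_MS.1 (Finset.mem_filter.1 ht).1
      rw [← h2]
      exact Multiset.sum_count_eq_card (fun a ha => Finset.mem_range.2 (h3 a ha))
    rw [Finset.sum_congr rfl this, Finset.sum_const, smul_eq_mul, m, mul_comm]
  rw [h1, Finset.sum_comm, ← Finset.sum_add_distrib]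
  apply Finset.sum_congr rfl
  intro v hv
  have hv' : v < B := Finset.mem_range.1 hv
  -- split according to v ∈ t
  have h2 : ∑ t ∈ (MS B (n+1)).filter (· ∈ S), Multiset.count v t
      = ∑ s ∈ (MS B n).filter (fun s => v ::ₘ s ∈ S), Multiset.count v (v ::ₘ s) := by
    symm
    rw [← Finset.sum_image (s := (MS B n).filter (fun s => v ::ₘ s ∈ S))
      (g := fun s => v ::ₘ s) (f := fun t => Multiset.count v t)
      (by intro a _ b _ h; exact Multiset.cons_inj_right v |>.1 h)]
    apply Finset.sum_subset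
    · intro t ht
      obtain ⟨s, hs, rfl⟩ := Finset.mem_image.1 ht
      obtain ⟨hs1, hs2⟩ := Finset.mem_filter.1 hs
      obtain ⟨hc, hb⟩ := mem_MS.1 hs1
      refine Finset.mem_filter.2 ⟨mem_MS.2 ⟨by simp [hc], ?_⟩, hs2⟩
      intro x hx
      rcases Multiset.mem_cons.1 hx with rfl | hx
      · exact hv'
      · exact hb x hx
    · intro t ht hnt
      rw [Multiset.count_eq_zero]
      intro hvt
      apply hnt
      obtain ⟨s, rfl⟩ := Multiset.exists_cons_of_mem hvt
      obtain ⟨ht1, ht2⟩ := Finset.mem_filter.1 ht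
      obtain ⟨hc, hb⟩ := mem_MS.1 ht1
      refine Finset.mem_image.2 ⟨s, Finset.mem_filter.2 ⟨mem_MS.2 ⟨by simpa using hc,
        fun x hx => hb x (Multiset.mem_cons_of_mem hx)⟩, ht2⟩, rfl⟩
  rw [h2]
  simp only [Multiset.count_cons_self, Finset.sum_add_distrib, Finset.sum_const, smul_eq_mul, mul_one]
  rw [add_comm]
  rfl

/-- closed under lowering one element -/
def Closed (S : Set (Multiset ℕ)) : Prop :=
  ∀ (s : Multiset ℕ) (a b : ℕ), b ≤ a → a ::ₘ s ∈ S → b ::ₘ s ∈ S

/-- repeat the maximum `r` more times -/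
def top (S : Set (Multiset ℕ)) (r : ℕ) : Set (Multiset ℕ) :=
  {s | s + Multiset.replicate r s.sup ∈ S}

theorem Closed.slice {S : Set (Multiset ℕ)} (h : Closed S) (v : ℕ) :
    Closed {s | v ::ₘ s ∈ S} := by
  intro s a b hab ha
  simp only [Set.mem_ofPred_eq] at ha ⊢
  rw [Multiset.cons_swap] at ha ⊢
  exact h _ a b hab ha

theorem Closed.rep {S : Set (Multiset ℕ)} (h : Closed S) {a b : ℕ} (hab : b ≤ a) :
    ∀ (r : ℕ) (s : Multiset ℕ), s + Multiset.replicate r a ∈ S → s + Multiset.replicate r b ∈ S := by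
  intro r
  induction r with
  | zero => intro s hs; simpa using hs
  | succ r ih =>
    intro s hs
    rw [Multiset.replicate_succ, Multiset.add_cons] at hs ⊢
    have h1 := h _ a b hab hs
    rw [← Multiset.cons_add] at h1 ⊢
    exact ih _ h1

theorem Closed.top {S : Set (Multiset ℕ)} (h : Closed S) (r : ℕ) : Closed (top S r) := by
  intro s a b hab ha
  simp only [SL.top, Set.mem_ofPred_eq, Multiset.sup_cons] at ha ⊢
  have h1 := h.rep (show b ⊔ s.sup ≤ a ⊔ s.sup from sup_le_sup_right hab _) r _ ha
  rw [Multiset.cons_add] at h1 ⊢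
  exact h _ a b hab h1

theorem sup_rep (s : Multiset ℕ) (r : ℕ) : (s + Multiset.replicate r s.sup).sup = s.sup := by
  rw [Multiset.sup_add]
  apply le_antisymm
  · apply sup_le le_rfl
    rw [Multiset.sup_le]
    intro b hb
    rw [Multiset.eq_of_mem_replicate hb]
  · exact le_sup_left

theorem top_top (S : Set (Multiset ℕ)) (r : ℕ) : top (top S 1) r = top S (r + 1) := by
  ext s
  simp only [SL.top, Set.mem_ofPred_eq, sup_rep]
  rw [add_assoc, ← Multiset.replicate_add]

theorem key {B n : ℕ} {S : Set (Multiset ℕ)} (h : Closed S) :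
    (∑ v ∈ Finset.range B, m B n {s | v ::ₘ s ∈ S}) + n * m B n (top S 1)
      ≤ (n + 1) * m B (n+1) S := by
  rw [succ_mul_m]
  apply Nat.add_le_add_left
  have h1 : n * m B n (top S 1)
      = ∑ v ∈ Finset.range B, ∑ s ∈ (MS B n).filter (· ∈ top S 1), Multiset.count v s := by
    rw [Finset.sum_comm]
    have : ∀ t ∈ (MS B n).filter (· ∈ top S 1), ∑ v ∈ Finset.range B, Multiset.count v t = n := by
      intro t ht
      obtain ⟨h2, h3⟩ := mem_MS.1 (Finset.mem_filter.1 ht).1
      rw [← h2]
      exact Multiset.sum_count_eq_card (fun a ha => Finset.mem_range.2 (h3 a ha))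
    rw [Finset.sum_congr rfl this, Finset.sum_const, smul_eq_mul, m, mul_comm]
  rw [h1]
  apply Finset.sum_le_sum
  intro v _
  rw [Finset.sum_filter, Finset.sum_filter]
  apply Finset.sum_le_sum
  intro s _
  by_cases hvs : v ∈ s
  · by_cases hs : s ∈ top S 1
    · have h3 : v ::ₘ s ∈ S := by
        simp only [SL.top, Set.mem_ofPred_eq, Multiset.replicate_one] at hs
        rw [add_comm, Multiset.singleton_add] at hs
        exact h _ _ _ (Multiset.le_sup hvs) hs
      rw [if_pos hs, if_pos h3]
    · rw [if_neg hs]; exact Nat.zero_le _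
  · rw [Multiset.count_eq_zero.2 hvs]
    split_ifs <;> simp

/-- The Stirling sum. -/
noncomputable def A (B n : ℕ) (S : Set (Multiset ℕ)) : ℕ :=
  ∑ c ∈ Finset.range (n+1), (ascPochhammer ℕ n).coeff c * u B c (top S (n - c))

theorem coeff_asc_succ (n c : ℕ) :
    (ascPochhammer ℕ (n+1)).coeff (c+1)
      = (ascPochhammer ℕ n).coeff c + n * (ascPochhammer ℕ n).coeff (c+1) := by
  rw [ascPochhammer_succ_right, mul_add, Polynomial.coeff_add, Polynomial.coeff_mul_X]
  congr 1
  rw [← Polynomial.C_eq_natCast, Polynomial.coeff_mul_C, mul_comm]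
  simp

theorem coeff_asc_zero (n : ℕ) :
    (ascPochhammer ℕ (n+1)).coeff 0 = 0 := by
  rw [Polynomial.coeff_zero_eq_eval_zero, ascPochhammer_eval_zero]
  simp

theorem coeff_asc_top (n : ℕ) : (ascPochhammer ℕ n).coeff (n+1) = 0 := by
  apply Polynomial.coeff_eq_zero_of_natDegree_lt
  rw [ascPochhammer_natDegree]
  exact Nat.lt_succ_self n

theorem A_succ_le {B n : ℕ} {S : Set (Multiset ℕ)} (h : Closed S) :
    A B (n+1) S ≤ (∑ v ∈ Finset.range B, A B n {s | v ::ₘ s ∈ S}) + n * A B n (top S 1) := by
  unfold A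
  rw [Finset.sum_range_succ']
  rw [coeff_asc_zero, zero_mul, add_zero]
  simp only [coeff_asc_succ, add_mul, Finset.sum_add_distrib]
  apply Nat.add_le_add
  · rw [Finset.sum_comm]
    apply Finset.sum_le_sum
    intro c hc
    rw [← Finset.mul_sum]
    apply Nat.mul_le_mul_left
    simp only [u]
    apply Finset.sum_le_sum
    intro v _
    apply u_mono
    intro s hs
    simp only [SL.top, Set.mem_ofPred_eq, Multiset.sup_cons] at hs ⊢
    have hr : n + 1 - (c + 1) = n - c := by omega
    rw [hr] at hs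
    have h1 := h.rep (show s.sup ≤ v ⊔ s.sup from le_sup_right) _ _ hs
    rwa [Multiset.cons_add] at h1
  · rw [Finset.sum_range_succ, coeff_asc_top, mul_zero, zero_mul, add_zero]
    rw [Finset.mul_sum]
    rw [Finset.sum_range_succ']
    rw [← add_zero (∑ c ∈ Finset.range n, _)]
    apply Nat.add_le_add _ (Nat.zero_le _)
    apply Finset.sum_le_sum
    intro c hc
    have hc' : c < n := Finset.mem_range.1 hc
    rw [top_top, mul_assoc]
    have : n + 1 - (c + 1) = n - (c + 1) + 1 := by omega
    rw [this]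

theorem zero_le_m (B : ℕ) (S : Set (Multiset ℕ)) : u B 0 S ≤ m B 0 S := by
  unfold u m
  split_ifs with h
  · rw [Nat.succ_le_iff, Finset.card_pos]
    exact ⟨0, Finset.mem_filter.2 ⟨by simp [MS], h⟩⟩
  · exact Nat.zero_le _

theorem m_zero_le (B : ℕ) (S : Set (Multiset ℕ)) : m B 0 S ≤ u B 0 S := by
  unfold u m
  by_cases h : (0 : Multiset ℕ) ∈ S
  · rw [if_pos h]
    exact (Finset.card_filter_le _ _).trans (by simp [MS])
  · rw [if_neg h, Nat.le_zero, Finset.card_eq_zero, Finset.filter_eq_empty_iff]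
    intro x hx hx2
    rw [MS, Finset.mem_singleton] at hx
    rw [hx] at hx2
    exact h hx2

theorem A_le (B n : ℕ) : ∀ {S : Set (Multiset ℕ)}, Closed S → A B n S ≤ n.factorial * m B n S := by
  induction n with
  | zero =>
    intro S _
    have h1 : A B 0 S = u B 0 (top S 0) := by simp [A]
    have h2 : top S 0 = S := by ext s; simp [SL.top]
    rw [h1, h2, Nat.factorial_zero, one_mul]
    exact zero_le_m B S
  | succ n ih =>
    intro S hS
    calc A B (n+1) S ≤ (∑ v ∈ Finset.range B, A B n {s | v ::ₘ s ∈ S}) + n * A B n (top S 1) :=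
          A_succ_le hS
      _ ≤ (∑ v ∈ Finset.range B, n.factorial * m B n {s | v ::ₘ s ∈ S})
            + n * (n.factorial * m B n (top S 1)) := by
          apply Nat.add_le_add
          · exact Finset.sum_le_sum (fun v _ => ih (hS.slice v))
          · exact Nat.mul_le_mul_left _ (ih (hS.top 1))
      _ = n.factorial * ((∑ v ∈ Finset.range B, m B n {s | v ::ₘ s ∈ S}) + n * m B n (top S 1)) := by
          rw [← Finset.mul_sum]; ring
      _ ≤ n.factorial * ((n+1) * m B (n+1) S) := Nat.mul_le_mul_left _ (key hS)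
      _ = (n+1).factorial * m B (n+1) S := by rw [Nat.factorial_succ]; ring

/-- scaling a family by `N` -/
def scale (N : ℕ) (S : Set (Multiset ℕ)) : Set (Multiset ℕ) := {t | t.map (· / N) ∈ S}

theorem sum_range_mul_div (B N : ℕ) (hN : 0 < N) (f : ℕ → ℕ) :
    ∑ v ∈ Finset.range (B * N), f (v / N) = N * ∑ w ∈ Finset.range B, f w := by
  induction B with
  | zero => simp
  | succ B ih =>
    rw [Nat.succ_mul, Finset.sum_range_add, ih, Finset.sum_range_succ, mul_add]
    congr 1
    have : ∀ x ∈ Finset.range N, f ((B * N + x) / N) = f B := by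
      intro x hx
      have hx' := Finset.mem_range.1 hx
      rw [show (B * N + x) / N = B by
        rw [mul_comm, Nat.mul_add_div hN, Nat.div_eq_of_lt hx']; rfl]
    rw [Finset.sum_congr rfl this, Finset.sum_const, Finset.card_range, smul_eq_mul]

theorem m_scale (B n : ℕ) : ∀ S : Set (Multiset ℕ), ∃ K : ℕ, ∀ N : ℕ, 0 < N →
    N * (n.factorial * m (B * N) n (scale N S)) ≤ N ^ (n+1) * u B n S + K * N ^ n := by
  induction n with
  | zero =>
    intro S
    refine ⟨0, fun N hN => ?_⟩
    rw [Nat.factorial_zero, one_mul, zero_mul, add_zero, zero_add, pow_one]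
    apply Nat.mul_le_mul_left
    have h1 : m (B * N) 0 (scale N S) ≤ u (B * N) 0 (scale N S) := m_zero_le _ _
    refine h1.trans ?_
    simp only [u]
    by_cases h0 : (0 : Multiset ℕ) ∈ S
    · rw [if_pos h0]
      split_ifs <;> simp
    · rw [if_neg h0, if_neg]
      intro h; exact h0 (by simpa [scale] using h)
  | succ n ih =>
    intro S
    choose K hK using ih
    refine ⟨(∑ w ∈ Finset.range B, K {s | w ::ₘ s ∈ S}) + n.factorial * n * B ^ n, fun N hN => ?_⟩
    have h0 : ∀ v, ({s | v ::ₘ s ∈ scale N S} : Set (Multiset ℕ))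
        = scale N {s | (v / N) ::ₘ s ∈ S} := by
      intro v; ext s; simp [scale]
    have h1 : (n+1) * m (B * N) (n+1) (scale N S)
        ≤ N * ∑ w ∈ Finset.range B, m (B * N) n (scale N {s | w ::ₘ s ∈ S}) + n * (B * N) ^ n := by
      rw [succ_mul_m]
      apply Nat.add_le_add
      · simp only [h0]
        rw [sum_range_mul_div B N hN (fun w => m (B * N) n (scale N {s | w ::ₘ s ∈ S}))]
      · calc ∑ v ∈ Finset.range (B*N), ∑ s ∈ (MS (B*N) n).filter (fun s => v ::ₘ s ∈ scale N S),
              Multiset.count v s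
            ≤ ∑ v ∈ Finset.range (B*N), ∑ s ∈ (MS (B*N) n), Multiset.count v s := by
              apply Finset.sum_le_sum
              intro v _
              exact Finset.sum_le_sum_of_subset (Finset.filter_subset _ _)
          _ = ∑ s ∈ (MS (B*N) n), ∑ v ∈ Finset.range (B*N), Multiset.count v s := Finset.sum_comm
          _ = ∑ s ∈ (MS (B*N) n), n := by
              apply Finset.sum_congr rfl
              intro t ht
              obtain ⟨h2, h3⟩ := mem_MS.1 ht
              conv_rhs => rw [← h2]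
              exact Multiset.sum_count_eq_card (fun a ha => Finset.mem_range.2 (h3 a ha))
          _ = (MS (B*N) n).card * n := by rw [Finset.sum_const, smul_eq_mul]
          _ ≤ (B*N)^n * n := Nat.mul_le_mul_right _ (card_MS_le _ _)
          _ = n * (B*N)^n := mul_comm _ _
    calc N * ((n+1).factorial * m (B * N) (n+1) (scale N S))
        = (N * n.factorial) * ((n+1) * m (B * N) (n+1) (scale N S)) := by
          rw [Nat.factorial_succ]; ring
      _ ≤ (N * n.factorial) * (N * ∑ w ∈ Finset.range B, m (B * N) n (scale N {s | w ::ₘ s ∈ S})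
            + n * (B * N) ^ n) := Nat.mul_le_mul_left _ h1
      _ = N * (∑ w ∈ Finset.range B, N * (n.factorial * m (B * N) n (scale N {s | w ::ₘ s ∈ S})))
            + N * n.factorial * n * (B * N) ^ n := by
          rw [← Finset.mul_sum, ← Finset.mul_sum]; ring
      _ ≤ N * (∑ w ∈ Finset.range B, (N ^ (n+1) * u B n {s | w ::ₘ s ∈ S}
            + K {s | w ::ₘ s ∈ S} * N ^ n)) + N * n.factorial * n * (B * N) ^ n := by
          apply Nat.add_le_add_right
          apply Nat.mul_le_mul_left
          apply Finset.sum_le_sum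
          intro w _
          exact hK _ N hN
      _ = N ^ (n+1+1) * u B (n+1) S
          + ((∑ w ∈ Finset.range B, K {s | w ::ₘ s ∈ S}) + n.factorial * n * B ^ n) * N ^ (n+1) := by
          simp only [u]
          rw [Finset.sum_add_distrib, ← Finset.mul_sum, ← Finset.sum_mul, mul_pow]
          ring

end Pool.Agent.Q57.SL
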