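import Pool.Agent.Q57.SL.Comb

set_option autoImplicit false

/-! Exponent vectors and multisets of partial sums. -/

namespace Pool.Agent.Q57.SL

open Multiset Finset
open scoped Classical

/-- multiset of tail sums -/
def Y : (n : ℕ) → (Fin n → ℕ) → Multiset ℕ
  | 0, _ => 0
  | n + 1, a => (∑ i, a i) ::ₘ Y n (Fin.tail a)

theorem card_Y : ∀ (n : ℕ) (a : Fin n → ℕ), Multiset.card (Y n a) = n
  | 0, _ => rfl
  | n + 1, a => by simp [Y, card_Y n]

theorem sum_tail {n : ℕ} (a : Fin (n+1) → ℕ) : ∑ i, a i = a 0 + ∑ i, Fin.tail a i := by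
  rw [Fin.sum_univ_succ]; rfl

theorem sup_Y : ∀ (n : ℕ) (a : Fin n → ℕ), (Y n a).sup = ∑ i, a i
  | 0, _ => by simp [Y]
  | n + 1, a => by
    rw [Y, Multiset.sup_cons, sup_Y n, sum_tail a]
    exact sup_eq_left.2 (Nat.le_add_left _ _)

theorem Y_inj : ∀ (n : ℕ) (a b : Fin n → ℕ), Y n a = Y n b → a = b
  | 0, a, b, _ => Subsingleton.elim _ _
  | n + 1, a, b, h => by
    have h1 : ∑ i, a i = ∑ i, b i := by rw [← sup_Y, ← sup_Y, h]
    rw [Y, Y, h1, Multiset.cons_inj_right] at h
    have h2 := Y_inj n _ _ h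
    have h3 : a 0 = b 0 := by
      rw [sum_tail a, sum_tail b, h2] at h1
      omega
    rw [← Fin.cons_self_tail a, ← Fin.cons_self_tail b, h2, h3]

theorem sup_mem : ∀ (t : Multiset ℕ), t ≠ 0 → t.sup ∈ t := by
  intro t
  induction t using Multiset.induction_on with
  | empty => intro h; exact absurd rfl h
  | cons a s ih =>
    intro _
    rw [Multiset.sup_cons]
    by_cases hs : s = 0
    · subst hs; simp
    · rcases le_total a s.sup with h | h
      · rw [sup_eq_right.2 h]; exact Multiset.mem_cons_of_mem (ih hs)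
      · rw [sup_eq_left.2 h]; exact Multiset.mem_cons_self _ _

theorem Y_surj : ∀ (n : ℕ) (t : Multiset ℕ), Multiset.card t = n → ∃ a, Y n a = t
  | 0, t, h => ⟨fun _ => 0, by rw [Multiset.card_eq_zero.1 h]; rfl⟩
  | n + 1, t, h => by
    have hmem : t.sup ∈ t := by
      have h0 : t ≠ 0 := by rintro rfl; simp at h
      exact sup_mem t h0
    obtain ⟨t', ht'⟩ := Multiset.exists_cons_of_mem hmem
    have hc : Multiset.card t' = n := by
      rw [ht'] at h; simpa using h
    obtain ⟨a', ha'⟩ := Y_surj n t' hc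
    have hs : ∑ i, a' i = t'.sup := by rw [← sup_Y, ha']
    have hle : t'.sup ≤ t.sup := by
      rw [Multiset.sup_le]
      intro b hb
      apply Multiset.le_sup
      rw [ht']; exact Multiset.mem_cons_of_mem hb
    refine ⟨Fin.cons (t.sup - ∑ i, a' i) a', ?_⟩
    rw [Y, sum_tail, Fin.cons_zero, Fin.tail_cons, ha']
    rw [Nat.sub_add_cancel (by rw [hs]; exact hle)]
    exact ht'.symm

theorem Y_smul (N : ℕ) : ∀ (n : ℕ) (a : Fin n → ℕ), Y n (N • a) = (Y n a).map (N * ·)
  | 0, _ => by simp [Y]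
  | n + 1, a => by
    rw [Y, Y, Multiset.map_cons]
    congr 1
    · simp [Finset.mul_sum]
    · exact Y_smul N n (Fin.tail a)

/-- dominance of multisets -/
def sle (s t : Multiset ℕ) : Prop := ∀ v, Multiset.countP (v ≤ ·) s ≤ Multiset.countP (v ≤ ·) t

def dom : (n : ℕ) → (Fin n → ℕ) → (Fin n → ℕ) → Prop
  | 0, _, _ => True
  | n + 1, a, b => (∑ i, a i ≤ ∑ i, b i) ∧ dom n (Fin.tail a) (Fin.tail b)

theorem dom_of_sle : ∀ (n : ℕ) (a b : Fin n → ℕ), sle (Y n a) (Y n b) → dom n a b
  | 0, _, _, _ => trivial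
  | n + 1, a, b, h => by
    have h1 : ∑ i, a i ≤ ∑ i, b i := by
      have h2 := h (∑ i, a i)
      have h3 : 0 < Multiset.countP ((∑ i, a i) ≤ ·) (Y (n+1) a) := by
        rw [Multiset.countP_pos]
        exact ⟨_, Multiset.mem_cons_self _ _, le_rfl⟩
      obtain ⟨x, hx, hx2⟩ := Multiset.countP_pos.1 (lt_of_lt_of_le h3 h2)
      refine hx2.trans ?_
      rw [← sup_Y (n+1) b]
      exact Multiset.le_sup hx
    refine ⟨h1, dom_of_sle n _ _ ?_⟩
    intro v
    by_cases hv : v ≤ ∑ i, a i
    · have h2 := h v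
      have e1 := Multiset.countP_cons_of_pos (p := fun x => v ≤ x) (Y n (Fin.tail a)) hv
      have e2 := Multiset.countP_cons_of_pos (p := fun x => v ≤ x) (Y n (Fin.tail b)) (hv.trans h1)
      rw [Y, Y, e1, e2] at h2
      exact Nat.le_of_add_le_add_right h2
    · have : Multiset.countP (v ≤ ·) (Y n (Fin.tail a)) = 0 := by
        rw [Multiset.countP_eq_zero]
        intro x hx hvx
        apply hv
        refine hvx.trans ((Multiset.le_sup hx).trans ?_)
        rw [sup_Y, sum_tail a]
        exact Nat.le_add_left _ _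
      rw [this]
      exact Nat.zero_le _

theorem cons_add_single {n : ℕ} (x : ℕ) (c : Fin n → ℕ) (j : Fin n) :
    (Fin.cons x (c + Pi.single j 1) : Fin (n+1) → ℕ) = Fin.cons x c + Pi.single j.succ 1 := by
  funext l
  refine Fin.cases ?_ (fun l => ?_) l
  · simp
  · simp [Pi.single_apply, Fin.succ_inj]

theorem cons_succ_eq {n : ℕ} (x : ℕ) (c : Fin n → ℕ) :
    (Fin.cons (x + 1) c : Fin (n+1) → ℕ) = Fin.cons x c + Pi.single 0 1 := by
  funext l
  refine Fin.cases ?_ (fun l => ?_) l
  · simp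
  · simp [Pi.single_apply, Fin.succ_ne_zero]

theorem sum_add_single {n : ℕ} (c : Fin n → ℕ) (j : Fin n) :
    ∑ i, (c + Pi.single j 1 : Fin n → ℕ) i = (∑ i, c i) + 1 := by
  simp only [Pi.add_apply, Finset.sum_add_distrib]
  simp [Pi.single_apply]

theorem dom_induct : ∀ (n : ℕ) (P : (Fin n → ℕ) → Prop),
    (∀ c j, P c → P (c + Pi.single j 1)) →
    (∀ (c : Fin n → ℕ) (i j : Fin n), i < j → P (c + Pi.single i 1) → P (c + Pi.single j 1)) →
    ∀ a b, dom n a b → P a → P b
  | 0, P, _, _, a, b, _, h => by rwa [Subsingleton.elim b a]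
  | n + 1, P, h1, h2, a, b, hd, h => by
    obtain ⟨hs, hd'⟩ := hd
    have key := dom_induct n (fun c' => P (Fin.cons ((∑ i, a i) - ∑ i, c' i) c')) ?_ ?_
      (Fin.tail a) (Fin.tail b) hd' ?_
    · have hle : (∑ i, a i) - ∑ i, Fin.tail b i ≤ b 0 := by
        rw [sum_tail b] at hs; omega
      have hup : ∀ (y x : ℕ), x ≤ y → P (Fin.cons x (Fin.tail b)) → P (Fin.cons y (Fin.tail b)) := by
        intro y x hxy hx
        induction y, hxy using Nat.le_induction with
        | base => exact hx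
        | succ y _ ih => rw [cons_succ_eq]; exact h1 _ _ ih
      have := hup _ _ hle key
      rwa [Fin.cons_self_tail] at this
    · intro c j hc
      simp only [sum_add_single]
      by_cases hlt : ∑ i, c i < ∑ i, a i
      · have : (∑ i, a i) - ∑ i, c i = ((∑ i, a i) - ((∑ i, c i) + 1)) + 1 := by omega
        simp only [this, cons_succ_eq] at hc
        rw [cons_add_single]
        exact h2 _ _ _ (Fin.succ_pos j) hc
      · have : (∑ i, a i) - ((∑ i, c i) + 1) = (∑ i, a i) - ∑ i, c i := by omega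
        rw [this, cons_add_single]
        exact h1 _ _ hc
    · intro c i j hij hc
      simp only [sum_add_single] at hc ⊢
      rw [cons_add_single] at hc ⊢
      exact h2 _ _ _ (Fin.succ_lt_succ_iff.2 hij) hc
    · have : (∑ i, a i) - ∑ i, Fin.tail a i = a 0 := by rw [sum_tail a]; omega
      simp only [this, Fin.cons_self_tail]
      exact h

section Q
variable {n : ℕ}

/-- full move of coordinate `i` into coordinate `j` -/
def mv (i j : Fin n) (v : Fin n → ℕ) : Fin n → ℕ :=
  fun l => if l = i then 0 else if l = j then v j + v i else v l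

theorem mv_add (i j : Fin n) (u v : Fin n → ℕ) : mv i j (u + v) = mv i j u + mv i j v := by
  funext l
  rw [Pi.add_apply]
  unfold mv
  by_cases h1 : l = i
  · simp [h1]
  · by_cases h2 : l = j
    · simp only [h2, if_true, Pi.add_apply]
      rw [if_neg (by rw [← h2]; exact h1), if_neg (by rw [← h2]; exact h1),
        if_neg (by rw [← h2]; exact h1)]
      ring
    · simp [h1, h2]

theorem mv_zero (i j : Fin n) : mv i j 0 = 0 := by
  funext l
  simp only [mv, Pi.zero_apply]
  split_ifs <;> rfl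

def mvHom (i j : Fin n) : (Fin n → ℕ) →+ (Fin n → ℕ) where
  toFun := mv i j
  map_zero' := mv_zero i j
  map_add' := mv_add i j

theorem mv_mono (i j : Fin n) {u v : Fin n → ℕ} (h : u ≤ v) : mv i j u ≤ mv i j v := by
  intro l
  have h1 : u i ≤ v i := h i
  have h2 : u j ≤ v j := h j
  have h3 : u l ≤ v l := h l
  simp only [mv]
  split_ifs <;> omega

/-- `a` lies in `K` times the (rational) convex hull of `E` -/
def Q (E : Set (Fin n → ℕ)) (K : ℕ) (a : Fin n → ℕ) : Prop :=
  ∃ S : Multiset (Fin n → ℕ), S ≠ 0 ∧ (∀ v ∈ S, v ∈ E) ∧ K • S.sum ≤ (Multiset.card S) • a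

theorem Q_of_mem {E : Set (Fin n → ℕ)} {a : Fin n → ℕ} (h : a ∈ E) : Q E 1 a :=
  ⟨{a}, by simp, by simpa using h, by simp⟩

theorem Q_mono {E : Set (Fin n → ℕ)} {K : ℕ} {a b : Fin n → ℕ} (h : Q E K a) (hab : a ≤ b) :
    Q E K b := by
  obtain ⟨S, h1, h2, h3⟩ := h
  exact ⟨S, h1, h2, h3.trans (nsmul_le_nsmul_right hab _)⟩

theorem Q_smul {E : Set (Fin n → ℕ)} {a : Fin n → ℕ} (h : Q E 1 a) (N : ℕ) : Q E N (N • a) := by
  obtain ⟨S, h1, h2, h3⟩ := h
  refine ⟨S, h1, h2, ?_⟩
  rw [one_smul] at h3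
  rw [← mul_smul, mul_comm, mul_smul]
  exact nsmul_le_nsmul_right h3 _

theorem Q_mv {E : Set (Fin n → ℕ)} {i j : Fin n} (hE : ∀ v ∈ E, mv i j v ∈ E) {K : ℕ}
    {a : Fin n → ℕ} (h : Q E K a) : Q E K (mv i j a) := by
  obtain ⟨S, h1, h2, h3⟩ := h
  refine ⟨S.map (mv i j), by simpa using h1, ?_, ?_⟩
  · intro v hv
    obtain ⟨w, hw, rfl⟩ := Multiset.mem_map.1 hv
    exact hE w (h2 w hw)
  · rw [Multiset.card_map]
    have e1 : (S.map (mv i j)).sum = mv i j S.sum := (map_multiset_sum (mvHom i j) S).symm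
    have e2 : ∀ (k : ℕ) (w : Fin n → ℕ), k • mv i j w = mv i j (k • w) :=
      fun k w => (map_nsmul (mvHom i j) k w).symm
    rw [e1, e2, e2]
    exact mv_mono i j h3

theorem Q_convex {E : Set (Fin n → ℕ)} {K : ℕ} {a b c : Fin n → ℕ} (ha : Q E K a) (hb : Q E K b)
    {p q : ℕ} (hpq : 0 < p + q) (h : p • a + q • b ≤ (p + q) • c) : Q E K c := by
  obtain ⟨S, h1, h2, h3⟩ := ha
  obtain ⟨T, g1, g2, g3⟩ := hb
  have hS : 0 < Multiset.card S := Multiset.card_pos.2 h1
  have hT : 0 < Multiset.card T := Multiset.card_pos.2 g1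
  refine ⟨(p * Multiset.card T) • S + (q * Multiset.card S) • T, ?_, ?_, ?_⟩
  · rw [← Multiset.card_pos, Multiset.card_add, Multiset.card_nsmul, Multiset.card_nsmul]
    have : p * Multiset.card T * Multiset.card S + q * Multiset.card S * Multiset.card T
        = (p + q) * (Multiset.card S * Multiset.card T) := by ring
    rw [this]; positivity
  · intro v hv
    rcases Multiset.mem_add.1 hv with hv | hv
    · exact h2 v (Multiset.mem_of_mem_nsmul hv)
    · exact g2 v (Multiset.mem_of_mem_nsmul hv)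
  · intro l
    have h3' := h3 l
    have g3' := g3 l
    have h' := h l
    simp only [Multiset.sum_add, Multiset.sum_nsmul, Multiset.card_add, Multiset.card_nsmul,
      Pi.smul_apply, Pi.add_apply, smul_eq_mul] at *
    calc K * (p * Multiset.card T * S.sum l + q * Multiset.card S * T.sum l)
        = (p * Multiset.card T) * (K * S.sum l) + (q * Multiset.card S) * (K * T.sum l) := by ring
      _ ≤ (p * Multiset.card T) * (Multiset.card S * a l)
          + (q * Multiset.card S) * (Multiset.card T * b l) :=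
          Nat.add_le_add (Nat.mul_le_mul_left _ h3') (Nat.mul_le_mul_left _ g3')
      _ = (Multiset.card S * Multiset.card T) * (p * a l + q * b l) := by ring
      _ ≤ (Multiset.card S * Multiset.card T) * ((p + q) * c l) := Nat.mul_le_mul_left _ h'
      _ = _ := by ring

theorem Q_move {E : Set (Fin n → ℕ)} {i j : Fin n} (hij : i ≠ j) (hE : ∀ v ∈ E, mv i j v ∈ E)
    {K : ℕ} {c : Fin n → ℕ} (h : Q E K (c + Pi.single i 1)) : Q E K (c + Pi.single j 1) := by
  refine Q_convex (p := c i) (q := 1) h (Q_mv hE h) (by omega) ?_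
  intro l
  simp only [Pi.smul_apply, Pi.add_apply, smul_eq_mul, mv, Pi.single_apply]
  by_cases h1 : l = i
  · subst h1
    simp [hij]
    nlinarith
  · by_cases h2 : l = j
    · subst h2
      simp [hij.symm, hij]
      nlinarith
    · simp [h1, h2]
      nlinarith

theorem Q_dom {E : Set (Fin n → ℕ)} (hE : ∀ i j : Fin n, i < j → ∀ v ∈ E, mv i j v ∈ E)
    {K : ℕ} {a b : Fin n → ℕ} (hd : dom n a b) (h : Q E K a) : Q E K b := by
  refine dom_induct n (Q E K) ?_ ?_ a b hd h
  · intro c j hc
    exact Q_mono hc (fun l => Nat.le_add_right _ _)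
  · intro c i j hij hc
    exact Q_move hij.ne (hE i j hij) hc

end Q

/-- pad with zeros at the beginning -/
def pad (c : ℕ) : (i : ℕ) → (Fin c → ℕ) → (Fin (c + i) → ℕ)
  | 0, a => a
  | i + 1, a => Fin.cons 0 (pad c i a)

theorem sum_pad (c : ℕ) : ∀ (i : ℕ) (a : Fin c → ℕ), ∑ l, pad c i a l = ∑ l, a l
  | 0, _ => rfl
  | i + 1, a => by
    have := sum_tail (n := c + i) (pad c (i+1) a)
    refine this.trans ?_
    simp only [pad, Fin.cons_zero, Fin.tail_cons, zero_add]
    exact sum_pad c i a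

theorem Y_pad (c : ℕ) : ∀ (i : ℕ) (a : Fin c → ℕ),
    Y (c + i) (pad c i a) = Y c a + Multiset.replicate i (∑ l, a l)
  | 0, a => by simp [pad]
  | i + 1, a => by
    have h1 : Y (c + (i+1)) (pad c (i+1) a)
        = (∑ l, pad c (i+1) a l) ::ₘ Y (c+i) (Fin.tail (pad c (i+1) a)) := rfl
    rw [h1, sum_pad]
    simp only [pad, Fin.tail_cons]
    rw [Y_pad c i a, Multiset.replicate_succ, Multiset.add_cons]

theorem exists_pad (c : ℕ) : ∀ (i : ℕ) (b : Fin (c + i) → ℕ), (∀ l : Fin (c+i), l.val < i → b l = 0) →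
    ∃ a, pad c i a = b
  | 0, b, _ => ⟨b, rfl⟩
  | i + 1, b, h => by
    obtain ⟨a, ha⟩ := exists_pad c i (Fin.tail (n := c + i) b) (by
      intro l hl
      exact h l.succ (by simpa using hl))
    refine ⟨a, ?_⟩
    have : b = Fin.cons (n := c + i) (α := fun _ => ℕ) (b 0) (Fin.tail (n := c+i) b) :=
      (Fin.cons_self_tail (n := c+i) b).symm
    rw [this, pad, ha, h 0 (by simp)]

section S
variable {n : ℕ}

/-- the multisets of cardinality `n` not dominating an element of the integral closure of `E` -/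
def SE (E : Set (Fin n → ℕ)) : Set (Multiset ℕ) :=
  {t | Multiset.card t = n ∧ ∀ a, Q E 1 a → ¬ sle (Y n a) t}

theorem SE_closed (E : Set (Fin n → ℕ)) : Closed (SE E) := by
  intro s a b hab h
  refine ⟨by simpa using h.1, fun c hc hs => h.2 c hc ?_⟩
  intro v
  refine (hs v).trans ?_
  by_cases hv : v ≤ b
  · rw [Multiset.countP_cons_of_pos _ hv, Multiset.countP_cons_of_pos _ (hv.trans hab)]
  · rw [Multiset.countP_cons_of_neg _ hv]
    exact Multiset.countP_le_of_le _ (Multiset.le_cons_self _ _)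

theorem countP_Y_le {s : ℕ} : ∀ (n : ℕ) (v : ℕ), 0 < v →
    Multiset.countP (v ≤ ·) (Y (n+1) (Pi.single 0 s)) ≤ if v ≤ s then 1 else 0 := by
  intro n v hv
  have h0 : ∀ n, Multiset.countP (v ≤ ·) (Y n (fun _ => 0)) = 0 := by
    intro n
    rw [Multiset.countP_eq_zero]
    intro x hx hvx
    have := Multiset.le_sup hx
    rw [sup_Y] at this
    simp at this
    omega
  have h1 : Fin.tail (Pi.single 0 s : Fin (n+1) → ℕ) = fun _ => 0 := by
    funext l
    simp [Fin.tail, Pi.single_apply, Fin.succ_ne_zero]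
  have h2 : ∑ i, (Pi.single 0 s : Fin (n+1) → ℕ) i = s := by simp [Pi.single_apply]
  rw [Y, h1, h2, Multiset.countP_cons, h0]
  simp

theorem SE_bound {E : Set (Fin n → ℕ)} {s : ℕ} (hs : ∀ v : Fin n → ℕ, s ≤ ∑ i, v i → v ∈ E)
    {t : Multiset ℕ} (ht : t ∈ SE E) : ∀ x ∈ t, x < s := by
  intro x hx
  by_contra hxs
  push Not at hxs
  cases n with
  | zero =>
    have := ht.1
    rw [Multiset.card_eq_zero] at this
    rw [this] at hx
    simp at hx
  | succ n =>
    refine ht.2 (Pi.single 0 s) (Q_of_mem (hs _ (by simp [Pi.single_apply]))) ?_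
    intro v
    rcases Nat.eq_zero_or_pos v with rfl | hv
    · have h1 : ∀ w : Multiset ℕ, Multiset.countP (0 ≤ ·) w = Multiset.card w := by
        intro w
        rw [Multiset.countP_eq_card]
        intro a _
        exact Nat.zero_le _
      rw [h1, h1, card_Y, ht.1]
    · refine (countP_Y_le n v hv).trans ?_
      split_ifs with hvs
      · rw [Nat.succ_le_iff, Multiset.countP_pos]
        exact ⟨x, hx, hvs.trans hxs⟩
      · exact Nat.zero_le _

theorem m_SE_le {E : Set (Fin n → ℕ)} (B : ℕ) (D : Finset (Fin n → ℕ)) (hD : ∀ b, b ∉ E → b ∈ D) :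
    m B n (SE E) ≤ (D.filter (· ∉ E)).card := by
  unfold m
  have : ((MS B n).filter (· ∈ SE E)) ⊆ (D.filter (· ∉ E)).image (Y n) := by
    intro t ht
    obtain ⟨h1, h2⟩ := Finset.mem_filter.1 ht
    obtain ⟨a, ha⟩ := Y_surj n t h2.1
    have haE : a ∉ E := by
      intro hmem
      refine h2.2 a (Q_of_mem hmem) ?_
      rw [ha]; intro v; exact le_rfl
    exact Finset.mem_image.2 ⟨a, Finset.mem_filter.2 ⟨hD a haE, haE⟩, ha⟩
  exact (Finset.card_le_card this).trans Finset.card_image_le

end S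

theorem map_div_sup (N : ℕ) (s : Multiset ℕ) : (s.map (· / N)).sup = s.sup / N := by
  induction s using Multiset.induction_on with
  | empty => simp
  | cons a s ih =>
    rw [Multiset.map_cons, Multiset.sup_cons, Multiset.sup_cons, ih]
    rcases le_total a s.sup with h | h
    · rw [sup_eq_right.2 h, sup_eq_right.2 (Nat.div_le_div_right h)]
    · rw [sup_eq_left.2 h, sup_eq_left.2 (Nat.div_le_div_right h)]

theorem sle_scale {N : ℕ} (hN : 0 < N) {s t : Multiset ℕ} (h : sle s (t.map (· / N))) :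
    sle (s.map (N * ·)) t := by
  intro v
  have h1 : Multiset.countP (v ≤ ·) (s.map (N * ·))
      = Multiset.countP ((v + N - 1) / N ≤ ·) s := by
    rw [Multiset.countP_map, ← Multiset.countP_eq_card_filter]
    apply Multiset.countP_congr rfl
    intro x _
    rw [Nat.div_le_iff_le_mul_add_pred hN]
    apply propext
    constructor
    · intro h; omega
    · intro h; omega
  have h2 : Multiset.countP ((v + N - 1) / N ≤ ·) (t.map (· / N))
      ≤ Multiset.countP (v ≤ ·) t := by
    rw [Multiset.countP_map, Multiset.countP_eq_card_filter]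
    apply Multiset.card_le_card
    apply Multiset.monotone_filter_right
    intro x hx
    rw [Nat.le_div_iff_mul_le hN] at hx
    have h3 : v ≤ (v + N - 1) / N * N := by
      have := Nat.div_add_mod (v + N - 1) N
      have h4 := Nat.mod_lt (v + N - 1) hN
      have h5 : N * ((v + N - 1) / N) = (v + N - 1) / N * N := mul_comm _ _
      omega
    exact h3.trans hx
  rw [h1]
  exact (h _).trans h2

theorem notQ_mem {c i : ℕ} {E : Set (Fin (c+i) → ℕ)}
    (hE : ∀ i' j : Fin (c+i), i' < j → ∀ v ∈ E, mv i' j v ∈ E)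
    {s : ℕ} (hs : ∀ v : Fin (c+i) → ℕ, s ≤ ∑ i, v i → v ∈ E)
    {N : ℕ} (hN : 0 < N) {a : Fin c → ℕ} (ha : ¬ Q E N (pad c i a)) :
    Y c a ∈ (MS (s * N) c).filter (· ∈ scale N (top (SE E) i)) := by
  have h1 : (Y (c+i) (pad c i a)).map (· / N) ∈ SE E := by
    refine ⟨by rw [Multiset.card_map, card_Y], fun b hb hle => ha ?_⟩
    have h2 := sle_scale hN hle
    rw [← Y_smul] at h2
    exact Q_dom hE (dom_of_sle _ _ _ h2) (Q_smul hb N)
  have h2 : (Y (c+i) (pad c i a)).map (· / N)
      = (Y c a).map (· / N) + Multiset.replicate i ((Y c a).map (· / N)).sup := by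
    rw [Y_pad, Multiset.map_add, map_div_sup, sup_Y, Multiset.map_replicate]
  have hb := SE_bound hs h1
  rw [h2] at h1 hb
  refine Finset.mem_filter.2 ⟨mem_MS.2 ⟨card_Y c a, fun x hx => ?_⟩, h1⟩
  have h3 := hb (x / N) (Multiset.mem_add.2 (Or.inl (Multiset.mem_map_of_mem _ hx)))
  exact (Nat.div_lt_iff_lt_mul hN).1 h3

theorem card_notQ_le {c i : ℕ} {E : Set (Fin (c+i) → ℕ)}
    (hE : ∀ i' j : Fin (c+i), i' < j → ∀ v ∈ E, mv i' j v ∈ E)
    {s : ℕ} (hs : ∀ v : Fin (c+i) → ℕ, s ≤ ∑ i, v i → v ∈ E)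
    {N : ℕ} (hN : 0 < N) (F : Finset (Fin (c+i) → ℕ))
    (hF : ∀ b ∈ F, (∀ l : Fin (c+i), l.val < i → b l = 0) ∧ ¬ Q E N b) :
    F.card ≤ m (s * N) c (scale N (top (SE E) i)) := by
  unfold m
  have : F ⊆ ((((MS (s * N) c).filter (· ∈ scale N (top (SE E) i))).image
      (fun t => if h : Multiset.card t = c then pad c i (Y_surj c t h).choose else 0))) := by
    intro b hb
    obtain ⟨h1, h2⟩ := hF b hb
    obtain ⟨a, rfl⟩ := exists_pad c i b h1
    refine Finset.mem_image.2 ⟨Y c a, notQ_mem hE hs hN h2, ?_⟩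
    rw [dif_pos (card_Y c a)]
    congr 1
    exact Y_inj _ _ _ (Y_surj c (Y c a) (card_Y c a)).choose_spec
  exact (Finset.card_le_card this).trans Finset.card_image_le

/-- rational convex combinations are almost sums of elements of `E`. -/
theorem Q_approx {n : ℕ} {E : Set (Fin n → ℕ)} {s : ℕ} (hs : ∀ v : Fin n → ℕ, s ≤ ∑ i, v i → v ∈ E) :
    ∃ C : ℕ, ∀ (N : ℕ) (a : Fin n → ℕ), Q E N a →
      ∃ W : Multiset (Fin n → ℕ), (∀ v ∈ W, v ∈ E) ∧ W.sum ≤ a ∧ N ≤ Multiset.card W + C := by
  let A : Finset (Fin n → ℕ) := (Fintype.piFinset (fun _ => Finset.range (s+1))).filter (· ∈ E)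
  let g : (Fin n → ℕ) → (Fin n → ℕ) := fun v l => min (v l) s
  have hg1 : ∀ v, g v ≤ v := fun v l => min_le_left _ _
  have hg2 : ∀ v ∈ E, g v ∈ A := by
    intro v hv
    refine Finset.mem_filter.2 ⟨Fintype.mem_piFinset.2 (fun l => Finset.mem_range.2 (by
      have := min_le_right (v l) s; simp only [g]; omega)), ?_⟩
    by_cases h : ∀ l, v l ≤ s
    · have : g v = v := by funext l; exact min_eq_left (h l)
      rwa [this]
    · push Not at h
      obtain ⟨l, hl⟩ := h
      apply hs
      calc s = g v l := (min_eq_right hl.le).symm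
        _ ≤ ∑ i, g v i := Finset.single_le_sum (fun i _ => Nat.zero_le _) (Finset.mem_univ l)
  refine ⟨A.card, fun N a hQ => ?_⟩
  obtain ⟨S, h1, h2, h3⟩ := hQ
  set M := Multiset.card S with hM
  have hMpos : 0 < M := Multiset.card_pos.2 h1
  set S' := S.map g with hS'
  have hS'A : ∀ v ∈ S', v ∈ A := by
    intro v hv
    obtain ⟨w, hw, rfl⟩ := Multiset.mem_map.1 hv
    exact hg2 w (h2 w hw)
  have hcard : ∑ v ∈ A, Multiset.count v S' = M := by
    rw [Multiset.sum_count_eq_card hS'A, hS', Multiset.card_map]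
  have hsum : S'.sum = ∑ v ∈ A, Multiset.count v S' • v := by
    rw [Finset.sum_multiset_count_of_subset S' A (fun v hv => hS'A v (Multiset.mem_toFinset.1 hv))]
  have hle : S'.sum ≤ S.sum := by
    rw [hS']
    have : ∀ T : Multiset (Fin n → ℕ), (T.map g).sum ≤ T.sum := by
      intro T
      induction T using Multiset.induction_on with
      | empty => simp
      | cons a T ih => rw [Multiset.map_cons, Multiset.sum_cons, Multiset.sum_cons]
                       exact add_le_add (hg1 a) ih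
    exact this S
  refine ⟨∑ v ∈ A, Multiset.replicate (N * Multiset.count v S' / M) v, ?_, ?_, ?_⟩
  · intro v hv
    rw [Multiset.mem_sum] at hv
    obtain ⟨w, hw, hv⟩ := hv
    rw [Multiset.eq_of_mem_replicate hv]
    exact (Finset.mem_filter.1 hw).2
  · rw [Multiset.sum_sum]
    intro l
    have e : (∑ v ∈ A, (Multiset.replicate (N * Multiset.count v S' / M) v).sum) l
        = ∑ v ∈ A, (N * Multiset.count v S' / M) * v l := by
      rw [Finset.sum_apply]
      apply Finset.sum_congr rfl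
      intro v _
      rw [Multiset.sum_replicate]; rfl
    rw [e]
    have h4 : M * ∑ v ∈ A, (N * Multiset.count v S' / M) * v l ≤ M * a l := by
      calc M * ∑ v ∈ A, (N * Multiset.count v S' / M) * v l
          = ∑ v ∈ A, (M * (N * Multiset.count v S' / M)) * v l := by
            rw [Finset.mul_sum]; apply Finset.sum_congr rfl; intro v _; ring
        _ ≤ ∑ v ∈ A, (N * Multiset.count v S') * v l := by
            apply Finset.sum_le_sum
            intro v _
            exact Nat.mul_le_mul_right _ (Nat.mul_div_le _ _)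
        _ = N * S'.sum l := by
            rw [hsum, Finset.sum_apply, Finset.mul_sum]
            apply Finset.sum_congr rfl
            intro v _
            simp only [Pi.smul_apply, smul_eq_mul]; ring
        _ ≤ N * S.sum l := Nat.mul_le_mul_left _ (hle l)
        _ ≤ M * a l := by simpa using h3 l
    exact Nat.le_of_mul_le_mul_left h4 hMpos
  · rw [Multiset.card_sum]
    simp only [Multiset.card_replicate]
    have h4 : M * N ≤ M * (∑ v ∈ A, (N * Multiset.count v S' / M) + A.card) := by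
      calc M * N = ∑ v ∈ A, N * Multiset.count v S' := by
            rw [← Finset.mul_sum, hcard, mul_comm]
        _ ≤ ∑ v ∈ A, M * (N * Multiset.count v S' / M + 1) := by
            apply Finset.sum_le_sum
            intro v _
            have := Nat.div_add_mod (N * Multiset.count v S') M
            have h5 := Nat.mod_lt (N * Multiset.count v S') hMpos
            rw [mul_add, mul_one]
            omega
        _ = M * (∑ v ∈ A, (N * Multiset.count v S' / M) + A.card) := by
            rw [← Finset.mul_sum, Finset.sum_add_distrib]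
            simp
    exact Nat.le_of_mul_le_mul_left h4 hMpos

end Pool.Agent.Q57.SL
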