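import Pool.Agent.Q57.SL.WB

set_option autoImplicit false

/-! Genericity: the good matrices contain a nonempty open set. -/

namespace Pool.Agent.Q57.SL

open Submodule
open scoped Classical Pointwise

section gen
variable {k R : Type*} [Field k] [CommRing R] [Algebra k R] {n : ℕ}

/-- apply a linear functional to the coefficients -/
noncomputable def polyL {τ : Type*} (ℓ : R →ₗ[k] k) (p : MvPolynomial τ R) : MvPolynomial τ k :=
  ∑ m ∈ p.support, MvPolynomial.monomial m (ℓ (MvPolynomial.coeff m p))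

theorem eval_polyL {τ : Type*} (ℓ : R →ₗ[k] k) (p : MvPolynomial τ R) (C : τ → k) :
    MvPolynomial.eval C (polyL ℓ p) = ℓ (MvPolynomial.eval (fun t => algebraMap k R (C t)) p) := by
  rw [polyL, map_sum, MvPolynomial.eval_eq, map_sum]
  apply Finset.sum_congr rfl
  intro m _
  rw [MvPolynomial.eval_monomial]
  have h1 : MvPolynomial.coeff m p * ∏ i ∈ m.support, algebraMap k R (C i) ^ m i
      = (m.prod fun i e => C i ^ e) • MvPolynomial.coeff m p := by
    rw [Algebra.smul_def, mul_comm, Finsupp.prod, map_prod]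
    simp only [map_pow]
  rw [h1, map_smul, smul_eq_mul, mul_comm]

/-- generic linear forms -/
noncomputable def Yg (x : Fin n → R) : Fin n → MvPolynomial (Fin n × Fin n) R :=
  fun i => ∑ t, MvPolynomial.X (i, t) * MvPolynomial.C (x t)

theorem eval_Yg (x : Fin n → R) (C : Matrix (Fin n) (Fin n) k) (b : Fin n → ℕ) :
    MvPolynomial.eval (fun p : Fin n × Fin n => algebraMap k R (C p.1 p.2)) (mon (Yg x) b)
      = mon (yC x C) b := by
  unfold mon
  rw [map_prod]
  apply Finset.prod_congr rfl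
  intro i _
  rw [map_pow]
  congr 1
  simp only [Yg, yC, map_sum, map_mul, MvPolynomial.eval_X, MvPolynomial.eval_C, Algebra.smul_def]

theorem semicont {I : Ideal R} {x : Fin n → R} {s : ℕ}
    (hnil : ∀ (C : Matrix (Fin n) (Fin n) k) (b : Fin n → ℕ), s ≤ ∑ i, b i → mon (yC x C) b ∈ I)
    (hspan : ∀ C : Matrix (Fin n) (Fin n) k, C.det ≠ 0 →
      Ik k I ⊔ span k (Set.range (mon (yC x C))) = ⊤)
    (C0 : Matrix (Fin n) (Fin n) k) (hC0 : C0.det ≠ 0) (a : Fin n → ℕ) :
    ∃ P : MvPolynomial (Fin n × Fin n) k, MvPolynomial.eval (fun p => C0 p.1 p.2) P ≠ 0 ∧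
      ∀ C : Matrix (Fin n) (Fin n) k, MvPolynomial.eval (fun p => C p.1 p.2) P ≠ 0 →
        dl I x s C a ≤ dl I x s C0 a := by
  set y0 := yC x C0 with hy0
  set F : Submodule k R := Ik k I with hF
  let D0 : Finset (Fin n → ℕ) := (box n s).filter (fun b => b ∉ Ex k I y0)
  have hD0span : F ⊔ span k (mon y0 '' (D0 : Set (Fin n → ℕ))) = ⊤ := by
    rw [eq_top_iff, ← hspan C0 hC0]
    apply sup_le le_sup_left
    rw [span_le]
    rintro _ ⟨b, rfl⟩
    refine supR (span_mono (Set.image_mono ?_)) (red (k := k) (hnil C0) b)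
    rintro d ⟨h2, h3, _⟩
    exact Finset.mem_coe.2 (Finset.mem_filter.2 ⟨h2, h3⟩)
  have hli : LinearIndependent k (fun d : D0 => F.mkQ (mon y0 d)) :=
    indep (I := I) (y := y0) F _ D0 rfl (fun b hb => ⟨(Finset.mem_filter.1 hb).2, le_sup_left⟩)
  have hsp : ⊤ ≤ span k (Set.range (fun d : D0 => F.mkQ (mon y0 d))) := by
    rintro z -
    obtain ⟨r, rfl⟩ := F.mkQ_surjective z
    have hr : r ∈ F ⊔ span k (mon y0 '' (D0 : Set (Fin n → ℕ))) := by rw [hD0span]; trivial
    obtain ⟨j, hj, f, hf, rfl⟩ := mem_sup.1 hr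
    rw [map_add, show F.mkQ j = 0 from (Submodule.Quotient.mk_eq_zero F).2 hj, zero_add]
    have h1 : Set.range (fun d : D0 => F.mkQ (mon y0 d)) = F.mkQ '' (mon y0 '' (D0 : Set (Fin n → ℕ))) := by
      ext z
      constructor
      · rintro ⟨d, rfl⟩; exact ⟨_, ⟨d, d.2, rfl⟩, rfl⟩
      · rintro ⟨_, ⟨d, hd, rfl⟩, rfl⟩; exact ⟨⟨d, hd⟩, rfl⟩
    rw [h1, span_image]
    exact ⟨f, hf, rfl⟩
  let β := Module.Basis.mk hli hsp
  have hβ : ∀ d, β d = F.mkQ (mon y0 d) := fun d => by simp [β]
  let ℓ : D0 → (R →ₗ[k] k) := fun d => (β.coord d) ∘ₗ F.mkQ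
  have hℓ0 : ∀ b d : D0, ℓ d (mon y0 b) = if b = d then 1 else 0 := by
    intro b d
    simp only [ℓ, LinearMap.comp_apply, ← hβ, Module.Basis.coord_apply, Module.Basis.repr_self,
      Finsupp.single_apply]
  have hℓ : ∀ r : R, r - ∑ d : D0, ℓ d r • mon y0 d ∈ F := by
    intro r
    rw [← Submodule.Quotient.mk_eq_zero F, ← Submodule.mkQ_apply, map_sub, map_sum, sub_eq_zero]
    simp only [map_smul, ← hβ]
    exact (β.sum_repr (F.mkQ r)).symm
  let NP : Matrix D0 D0 (MvPolynomial (Fin n × Fin n) k) := Matrix.of fun b d =>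
    if lx a b then polyL (ℓ d) (mon (Yg x) b) else (if b = d then 1 else 0)
  have hev : ∀ C : Matrix (Fin n) (Fin n) k,
      MvPolynomial.eval (fun p : Fin n × Fin n => C p.1 p.2) NP.det
        = (Matrix.of fun b d : D0 => if lx a b then ℓ d (mon (yC x C) b)
            else (if b = d then (1 : k) else 0)).det := by
    intro C
    rw [RingHom.map_det]
    congr 1
    ext b d
    simp only [RingHom.mapMatrix_apply, Matrix.map_apply, NP, Matrix.of_apply]
    by_cases h : lx a b
    · rw [if_pos h, if_pos h, eval_polyL, eval_Yg]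
    · rw [if_neg h, if_neg h]
      split_ifs <;> simp
  refine ⟨NP.det, ?_, ?_⟩
  · rw [hev]
    have : (Matrix.of fun b d : D0 => if lx a b then ℓ d (mon (yC x C0) b)
            else (if b = d then (1 : k) else 0)) = 1 := by
      ext b d
      rw [Matrix.of_apply, Matrix.one_apply, ← hy0, hℓ0, ite_self]
    rw [this, Matrix.det_one]
    exact one_ne_zero
  · intro C hC
    rw [hev] at hC
    let TT : Finset (Fin n → ℕ) := (box n s).filter (fun b => b ∉ Ex k I y0 ∧ lxe b a)
    let T : Finset R := TT.image (mon y0)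
    set W : Submodule k R := (Ik k I ⊔ G k (yC x C) a) ⊔ span k (T : Set R) with hW
    have hFW : F ≤ W := le_sup_left.trans le_sup_left
    have hu : (fun d : D0 => W.mkQ (mon y0 d)) = 0 := by
      apply solve_zero (k := k) _ hC
      intro b
      simp only [Matrix.of_apply]
      by_cases h : lx a b
      · simp only [if_pos h]
        have h1 := hFW (hℓ (mon (yC x C) b))
        rw [← Submodule.Quotient.mk_eq_zero W, ← Submodule.mkQ_apply, map_sub, map_sum, sub_eq_zero] at h1
        simp only [map_smul] at h1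
        rw [← h1, Submodule.mkQ_apply, Submodule.Quotient.mk_eq_zero]
        exact mem_sup_left (mem_sup_right (mon_mem_G _ h))
      · simp only [if_neg h, ite_smul, one_smul, zero_smul]
        rw [Finset.sum_ite_eq Finset.univ b]
        rw [if_pos (Finset.mem_univ _), Submodule.mkQ_apply, Submodule.Quotient.mk_eq_zero]
        refine mem_sup_right (subset_span ?_)
        obtain ⟨g1, g2⟩ := Finset.mem_filter.1 b.2
        exact Finset.mem_coe.2 (Finset.mem_image.2 ⟨b, Finset.mem_filter.2 ⟨g1, g2, not_lx.1 h⟩, rfl⟩)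
    have hWtop : W = ⊤ := by
      rw [eq_top_iff, ← hD0span]
      apply sup_le hFW
      rw [span_le]
      rintro _ ⟨m, hm, rfl⟩
      rw [SetLike.mem_coe, ← Submodule.Quotient.mk_eq_zero W]
      exact congrFun hu ⟨m, hm⟩
    have h1 := card_le_of_cov (I := I) (y := yC x C) (a := a) T hWtop
      ((box n s).filter (fun b => b ∉ Ex k I (yC x C) ∧ lxe b a))
      (fun b hb => (Finset.mem_filter.1 hb).2)
    exact h1.trans Finset.card_image_le

theorem generic_exists [Infinite k] {I : Ideal R} {x : Fin n → R} {s : ℕ}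
    (hnil : ∀ (C : Matrix (Fin n) (Fin n) k) (b : Fin n → ℕ), s ≤ ∑ i, b i → mon (yC x C) b ∈ I)
    (hspan : ∀ C : Matrix (Fin n) (Fin n) k, C.det ≠ 0 →
      Ik k I ⊔ span k (Set.range (mon (yC x C))) = ⊤) :
    ∃ P : MvPolynomial (Fin n × Fin n) k, P ≠ 0 ∧
      ∀ C : Matrix (Fin n) (Fin n) k, MvPolynomial.eval (fun p => C p.1 p.2) P ≠ 0 →
        C.det ≠ 0 ∧ ∀ i j : Fin n, i < j → ∀ a ∈ Ex k I (yC x C), mv i j a ∈ Ex k I (yC x C) := by
  have hmin : ∀ a : Fin n → ℕ, ∃ C0 : Matrix (Fin n) (Fin n) k, C0.det ≠ 0 ∧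
      ∀ C' : Matrix (Fin n) (Fin n) k, C'.det ≠ 0 → dl I x s C0 a ≤ dl I x s C' a := by
    intro a
    have hex : ∃ N, ∃ C : Matrix (Fin n) (Fin n) k, C.det ≠ 0 ∧ dl I x s C a = N :=
      ⟨_, 1, by rw [Matrix.det_one]; exact one_ne_zero, rfl⟩
    obtain ⟨C0, h1, h2⟩ := Nat.find_spec hex
    refine ⟨C0, h1, fun C' hC' => ?_⟩
    rw [h2]
    exact Nat.find_min' hex ⟨C', hC', rfl⟩
  choose C0 hC0 hC0min using hmin
  choose P hP1 hP2 using fun a => semicont hnil hspan (C0 a) (hC0 a) a
  refine ⟨(Matrix.mvPolynomialX (Fin n) (Fin n) k).det * ∏ a ∈ box n s, P a, ?_, ?_⟩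
  · refine mul_ne_zero (Matrix.det_mvPolynomialX_ne_zero _ _) (Finset.prod_ne_zero_iff.2 ?_)
    intro a _ h0
    apply hP1 a
    rw [h0, map_zero]
  · intro C hC
    rw [map_mul, map_prod] at hC
    have h1 : C.det ≠ 0 := by
      have := left_ne_zero_of_mul hC
      rw [RingHom.map_det, Matrix.mvPolynomialX_mapMatrix_eval] at this
      exact this
    have h2 := Finset.prod_ne_zero_iff.1 (right_ne_zero_of_mul hC)
    refine ⟨h1, fun i j hij a ha => ?_⟩
    refine weak_borel hnil hspan C h1 (fun a' ha' C' hC' => ?_) hij ha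
    exact (hP2 a' C (h2 a' ha')).trans (hC0min a' C' hC')

end gen

section rows
variable {k : Type*} [Field k] [Infinite k] {d : ℕ}

/-- complete `d` rows by a last row -/
def ext (c : Fin d → Fin (d+1) → k) (r : Fin (d+1) → k) : Matrix (Fin (d+1)) (Fin (d+1)) k :=
  Matrix.of fun i t => if h : i.val < d then c ⟨i.val, h⟩ t else r t

theorem rows_exists (P : MvPolynomial (Fin (d+1) × Fin (d+1)) k) (hP : P ≠ 0) :
    ∃ (Q : MvPolynomial (Fin d × Fin (d+1)) k) (r : Fin (d+1) → k), Q ≠ 0 ∧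
      ∀ c : Fin d → Fin (d+1) → k, MvPolynomial.eval (fun p => c p.1 p.2) Q ≠ 0 →
        MvPolynomial.eval (fun p => ext c r p.1 p.2) P ≠ 0 := by
  obtain ⟨C0, hC0⟩ : ∃ C0 : Fin (d+1) × Fin (d+1) → k, MvPolynomial.eval C0 P ≠ 0 := by
    by_contra hcon
    push Not at hcon
    exact hP (MvPolynomial.funext (fun x => by rw [hcon x, map_zero]))
  let r : Fin (d+1) → k := fun t => C0 (Fin.last d, t)
  let sub : Fin (d+1) × Fin (d+1) → MvPolynomial (Fin d × Fin (d+1)) k := fun p =>
    if h : p.1.val < d then MvPolynomial.X (⟨p.1.val, h⟩, p.2) else MvPolynomial.C (r p.2)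
  have hev : ∀ c : Fin d → Fin (d+1) → k,
      MvPolynomial.eval (fun p : Fin d × Fin (d+1) => c p.1 p.2) (MvPolynomial.aeval sub P)
        = MvPolynomial.eval (fun p => ext c r p.1 p.2) P := by
    intro c
    have h1 : (MvPolynomial.eval (fun p : Fin d × Fin (d+1) => c p.1 p.2)).comp
        (MvPolynomial.aeval sub : MvPolynomial (Fin (d+1) × Fin (d+1)) k →ₐ[k] _).toRingHom
        = MvPolynomial.eval (fun p => ext c r p.1 p.2) := by
      apply MvPolynomial.ringHom_ext
      · intro z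
        simp
      · intro p
        simp only [RingHom.comp_apply, AlgHom.toRingHom_eq_coe, RingHom.coe_coe,
          MvPolynomial.aeval_X, MvPolynomial.eval_X, sub, ext, Matrix.of_apply]
        split_ifs <;> simp
    exact RingHom.congr_fun h1 P
  refine ⟨MvPolynomial.aeval sub P, r, ?_, ?_⟩
  · intro h0
    apply hC0
    have := hev (fun i t => C0 (i.castSucc, t))
    rw [h0, map_zero] at this
    rw [this]
    congr 1
    congr 1
    funext p
    simp only [ext, Matrix.of_apply, r]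
    split_ifs with h
    · rfl
    · have : p.1 = Fin.last d := Fin.ext (by have := p.1.2; simp; omega)
      rw [← this]
  · intro c hc
    rwa [hev] at hc

end rows

end Pool.Agent.Q57.SL
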