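import Mathlib

set_option autoImplicit false

/-! Leading exponent sets of ideals in a commutative algebra with respect to a tuple of elements. -/

namespace Pool.Agent.Q57.SL

open Submodule
open scoped Classical Pointwise

section order
variable {n : ℕ}

/-- lexicographic order on exponents -/
def lx (a b : Fin n → ℕ) : Prop := toLex a < toLex b

/-- lexicographic order on exponents, non strict -/
def lxe (a b : Fin n → ℕ) : Prop := toLex a ≤ toLex b

theorem lx_iff {a b : Fin n → ℕ} : lx a b ↔ ∃ l, (∀ j, j < l → a j = b j) ∧ a l < b l := Iff.rfl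

theorem lxe_iff {a b : Fin n → ℕ} : lxe a b ↔ a = b ∨ lx a b := by
  unfold lxe lx
  rw [le_iff_eq_or_lt]
  exact or_congr ⟨fun h => toLex.injective h, fun h => congrArg toLex h⟩ Iff.rfl

theorem not_lx {a b : Fin n → ℕ} : ¬ lx a b ↔ lxe b a := not_lt

theorem not_lxe {a b : Fin n → ℕ} : ¬ lxe a b ↔ lx b a := not_le

theorem lxe_refl (a : Fin n → ℕ) : lxe a a := le_refl _

theorem lx_irrefl (a : Fin n → ℕ) : ¬ lx a a := lt_irrefl _

theorem lx.lxe {a b : Fin n → ℕ} (h : lx a b) : lxe a b := le_of_lt h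

theorem lx_lx {a b c : Fin n → ℕ} (h : lx a b) (h' : lx b c) : lx a c := lt_trans h h'
theorem lx_lxe {a b c : Fin n → ℕ} (h : lx a b) (h' : lxe b c) : lx a c := lt_of_lt_of_le h h'
theorem lxe_lx {a b c : Fin n → ℕ} (h : lxe a b) (h' : lx b c) : lx a c := lt_of_le_of_lt h h'
theorem lxe_lxe {a b c : Fin n → ℕ} (h : lxe a b) (h' : lxe b c) : lxe a c := le_trans h h'

theorem lx_add {a b : Fin n → ℕ} (h : lx a b) (c : Fin n → ℕ) : lx (a + c) (b + c) := by
  obtain ⟨l, h1, h2⟩ := lx_iff.1 h
  exact lx_iff.2 ⟨l, fun j hj => by simp [h1 j hj], by simpa using h2⟩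

theorem lxe_add {a b : Fin n → ℕ} (h : lxe a b) (c : Fin n → ℕ) : lxe (a + c) (b + c) := by
  rcases lxe_iff.1 h with rfl | h
  · exact lxe_refl _
  · exact (lx_add h c).lxe

theorem lx_add_lxe {a b c d : Fin n → ℕ} (h : lx a b) (h' : lxe c d) : lx (a + c) (b + d) := by
  refine lx_lxe (lx_add h c) ?_
  rw [add_comm b c, add_comm b d]
  exact lxe_add h' b

theorem lxe_add_right (a c : Fin n → ℕ) : lxe a (a + c) := by
  by_contra h
  rw [not_lxe, lx_iff] at h
  obtain ⟨l, _, h2⟩ := h
  simp at h2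

/-- the box -/
def box (n s : ℕ) : Finset (Fin n → ℕ) := Fintype.piFinset (fun _ => Finset.range s)

theorem mem_box {s : ℕ} {b : Fin n → ℕ} : b ∈ box n s ↔ ∀ l, b l < s := by
  simp [box]

theorem sum_of_not_mem_box {s : ℕ} {b : Fin n → ℕ} (h : b ∉ box n s) : s ≤ ∑ i, b i := by
  rw [mem_box] at h
  push Not at h
  obtain ⟨l, hl⟩ := h
  exact hl.trans (Finset.single_le_sum (fun i _ => Nat.zero_le _) (Finset.mem_univ l))

end order

section lead
variable {k R : Type*} [Field k] [CommRing R] [Algebra k R] {n : ℕ}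

/-- monomial in the elements `y` -/
def mon (y : Fin n → R) (b : Fin n → ℕ) : R := ∏ i, y i ^ b i

theorem mon_add (y : Fin n → R) (b c : Fin n → ℕ) : mon y (b + c) = mon y b * mon y c := by
  simp only [mon, Pi.add_apply, pow_add, Finset.prod_mul_distrib]

theorem mon_zero (y : Fin n → R) : mon y 0 = 1 := by simp [mon]

variable (k)

/-- span of monomials with exponent `> a` -/
def G (y : Fin n → R) (a : Fin n → ℕ) : Submodule k R := span k (mon y '' {b | lx a b})

/-- span of monomials with exponent `≥ a` -/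
def Ge (y : Fin n → R) (a : Fin n → ℕ) : Submodule k R := span k (mon y '' {b | lxe a b})

/-- `I` as a `k`-subspace -/
abbrev Ik (I : Ideal R) : Submodule k R := I.restrictScalars k

/-- leading exponents of `I` -/
def Ex (I : Ideal R) (y : Fin n → R) : Set (Fin n → ℕ) := {b | mon y b ∈ Ik k I ⊔ G k y b}

variable {k}

theorem supR {A B C : Submodule k R} (h : B ≤ C) {x : R} (hx : x ∈ A ⊔ B) : x ∈ A ⊔ C :=
  (sup_le_sup_left h A : A ⊔ B ≤ A ⊔ C) hx

theorem supL {A B C : Submodule k R} (h : A ≤ B) {x : R} (hx : x ∈ A ⊔ C) : x ∈ B ⊔ C :=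
  (sup_le_sup_right h C : A ⊔ C ≤ B ⊔ C) hx

theorem mem_Ex {I : Ideal R} {y : Fin n → R} {b : Fin n → ℕ} :
    b ∈ Ex k I y ↔ mon y b ∈ Ik k I ⊔ G k y b := Iff.rfl

theorem G_le_Ge (y : Fin n → R) (a : Fin n → ℕ) : G k y a ≤ Ge k y a :=
  span_mono (Set.image_mono (fun _ h => lx.lxe h))

theorem G_anti (y : Fin n → R) {a b : Fin n → ℕ} (h : lxe a b) : G k y b ≤ G k y a :=
  span_mono (Set.image_mono (fun _ h' => lxe_lx h h'))

theorem Ge_le_G (y : Fin n → R) {a b : Fin n → ℕ} (h : lx a b) : Ge k y b ≤ G k y a :=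
  span_mono (Set.image_mono (fun _ h' => lx_lxe h h'))

theorem mon_mem_Ge (y : Fin n → R) {a b : Fin n → ℕ} (h : lxe a b) : mon y b ∈ Ge k y a :=
  subset_span ⟨b, h, rfl⟩

theorem mon_mem_G (y : Fin n → R) {a b : Fin n → ℕ} (h : lx a b) : mon y b ∈ G k y a :=
  subset_span ⟨b, h, rfl⟩

theorem G_mul_Ge (y : Fin n → R) (a b : Fin n → ℕ) : G k y a * Ge k y b ≤ G k y (a + b) := by
  rw [G, Ge, span_mul_span, G]
  apply span_mono
  rintro _ ⟨_, ⟨c, hc, rfl⟩, _, ⟨d, hd, rfl⟩, rfl⟩
  exact ⟨c + d, lx_add_lxe hc hd, mon_add y c d⟩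

theorem Ex_mono {I J : Ideal R} (h : I ≤ J) (y : Fin n → R) : Ex k I y ⊆ Ex k J y := by
  intro b hb
  exact supL (show Ik k I ≤ Ik k J from fun x hx => h hx) hb

theorem Ex_mul {I J : Ideal R} {y : Fin n → R} {b c : Fin n → ℕ} (hb : b ∈ Ex k I y)
    (hc : c ∈ Ex k J y) : b + c ∈ Ex k (I * J) y := by
  obtain ⟨i, hi, f, hf, hif⟩ := mem_sup.1 hb
  obtain ⟨j, hj, g, hg, hjg⟩ := mem_sup.1 hc
  have key : mon y (b + c) = i * j + (f * mon y c + mon y b * g - f * g) := by
    rw [mon_add, ← hif, ← hjg]; ring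
  rw [mem_Ex, key]
  refine add_mem (mem_sup_left (Ideal.mul_mem_mul hi hj)) (mem_sup_right ?_)
  refine sub_mem (add_mem ?_ ?_) ?_
  · exact G_mul_Ge y b c (mul_mem_mul hf (mon_mem_Ge y (lxe_refl c)))
  · rw [mul_comm, add_comm]
    exact G_mul_Ge y c b (mul_mem_mul hg (mon_mem_Ge y (lxe_refl b)))
  · exact G_mul_Ge y b c (mul_mem_mul hf (G_le_Ge y c hg))

theorem mem_Ex_top (y : Fin n → R) (b : Fin n → ℕ) : b ∈ Ex k (⊤ : Ideal R) y :=
  mem_sup_left (by simp)

theorem Ex_up {I : Ideal R} {y : Fin n → R} {b c : Fin n → ℕ} (hb : b ∈ Ex k I y)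
    (hbc : b ≤ c) : c ∈ Ex k I y := by
  have h1 : c = b + (c - b) := by
    funext l
    have h2 : b l ≤ c l := hbc l
    simp only [Pi.add_apply, Pi.sub_apply]; omega
  rw [h1]
  have := Ex_mul hb (mem_Ex_top (k := k) y (c - b))
  rwa [Ideal.mul_top] at this

theorem Ex_pow {I : Ideal R} {y : Fin n → R} (W : Multiset (Fin n → ℕ)) (hW : ∀ v ∈ W, v ∈ Ex k I y) :
    W.sum ∈ Ex k (I ^ Multiset.card W) y := by
  induction W using Multiset.induction_on with
  | empty => simp only [Multiset.card_zero, pow_zero, Ideal.one_eq_top]; exact mem_Ex_top y _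
  | cons a W ih =>
    rw [Multiset.sum_cons, Multiset.card_cons, pow_succ, mul_comm]
    exact Ex_mul (hW a (Multiset.mem_cons_self _ _))
      (ih (fun v hv => hW v (Multiset.mem_cons_of_mem hv)))

theorem Ex_pow' {I : Ideal R} {y : Fin n → R} {W : Multiset (Fin n → ℕ)}
    (hW : ∀ v ∈ W, v ∈ Ex k I y) {N : ℕ} (hN : N ≤ Multiset.card W) {a : Fin n → ℕ}
    (ha : W.sum ≤ a) : a ∈ Ex k (I ^ N) y :=
  Ex_mono (Ideal.pow_le_pow_right hN) y (Ex_up (Ex_pow W hW) ha)

/-- reduction to non-leading exponents -/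
theorem red {J : Ideal R} {y : Fin n → R} {s : ℕ} (hnil : ∀ b : Fin n → ℕ, s ≤ ∑ i, b i → mon y b ∈ J)
    (b : Fin n → ℕ) :
    mon y b ∈ Ik k J ⊔ span k (mon y '' {d | d ∈ box n s ∧ d ∉ Ex k J y ∧ lxe b d}) := by
  induction h : ((box n s).filter (fun c => lx b c)).card using Nat.strong_induction_on generalizing b with
  | _ N ih =>
    by_cases hbox : b ∈ box n s
    · by_cases hb : b ∈ Ex k J y
      · have h1 : Ik k J ⊔ G k y b
            ≤ Ik k J ⊔ span k (mon y '' {d | d ∈ box n s ∧ d ∉ Ex k J y ∧ lxe b d}) := by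
          apply sup_le le_sup_left
          rw [G, span_le]
          rintro _ ⟨c, hc, rfl⟩
          by_cases hcb : c ∈ box n s
          · have hlt : ((box n s).filter (fun c' => lx c c')).card < N := by
              rw [← h]
              apply Finset.card_lt_card
              refine ⟨?_, ?_⟩
              · intro d hd
                obtain ⟨h2, h3⟩ := Finset.mem_filter.1 hd
                exact Finset.mem_filter.2 ⟨h2, lx_lx hc h3⟩
              · intro hsub
                have := hsub (Finset.mem_filter.2 ⟨hcb, hc⟩)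
                exact lx_irrefl c (Finset.mem_filter.1 this).2
            have h2 := ih _ hlt c rfl
            refine supR (span_mono (Set.image_mono ?_)) h2
            rintro d ⟨h3, h4, h5⟩
            exact ⟨h3, h4, lxe_lxe (lx.lxe hc) h5⟩
          · exact mem_sup_left (hnil c (sum_of_not_mem_box hcb))
        exact h1 hb
      · exact mem_sup_right (subset_span ⟨b, ⟨hbox, hb, lxe_refl b⟩, rfl⟩)
    · exact mem_sup_left (hnil b (sum_of_not_mem_box hbox))

/-- upper bound for the length -/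
theorem length_le {J : Ideal R} {y : Fin n → R} {s : ℕ}
    (hnil : ∀ b : Fin n → ℕ, s ≤ ∑ i, b i → mon y b ∈ J)
    (hspan : Ik k J ⊔ span k (Set.range (mon y)) = ⊤) :
    Module.length R (R ⧸ J) ≤ ((box n s).filter (· ∉ Ex k J y)).card := by
  set D := (box n s).filter (· ∉ Ex k J y) with hD
  have h1 : Ik k J ⊔ span k (mon y '' (D : Set (Fin n → ℕ))) = ⊤ := by
    rw [eq_top_iff, ← hspan]
    apply sup_le le_sup_left
    rw [span_le]
    rintro _ ⟨b, rfl⟩
    refine supR (span_mono (Set.image_mono ?_)) (red (k := k) hnil b)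
    rintro d ⟨h2, h3, _⟩
    exact Finset.mem_coe.2 (Finset.mem_filter.2 ⟨h2, h3⟩)
  -- the quotient is spanned by the images of the monomials
  let π : R →ₗ[k] (R ⧸ J) := (Ideal.Quotient.mkₐ k J).toLinearMap
  have h2 : span k (π '' (mon y '' (D : Set (Fin n → ℕ)))) = ⊤ := by
    rw [eq_top_iff]
    rintro x -
    obtain ⟨r, rfl⟩ := Ideal.Quotient.mk_surjective x
    have hr : r ∈ Ik k J ⊔ span k (mon y '' (D : Set (Fin n → ℕ))) := by rw [h1]; trivial
    obtain ⟨j, hj, f, hf, rfl⟩ := mem_sup.1 hr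
    rw [map_add, Ideal.Quotient.eq_zero_iff_mem.2 hj, zero_add]
    rw [span_image]
    exact ⟨f, hf, rfl⟩
  have hfin : (π '' (mon y '' (D : Set (Fin n → ℕ)))).Finite :=
    ((D.finite_toSet.image _).image _)
  have : Module.Finite k (R ⧸ J) := ⟨⟨hfin.toFinset, by simpa using h2⟩⟩
  have h3 : Module.length R (R ⧸ J) ≤ Module.length k (R ⧸ J) := by
    rw [← WithBot.coe_le_coe, Module.coe_length, Module.coe_length]
    exact Order.krullDim_le_of_orderEmbedding (restrictScalarsEmbedding k R (R ⧸ J))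
  refine h3.trans ?_
  rw [Module.length_eq_finrank]
  have h4 : Module.finrank k (R ⧸ J) ≤ hfin.toFinset.card := by
    have := finrank_span_finset_le_card (R := k) hfin.toFinset
    rw [Set.finrank, hfin.coe_toFinset, h2, finrank_top] at this
    exact this
  have h5 : hfin.toFinset.card ≤ D.card := by
    have : hfin.toFinset = (D.image (mon y)).image π := by
      ext x; simp
    rw [this]
    exact Finset.card_image_le.trans Finset.card_image_le
  exact_mod_cast h4.trans h5

/-- independence of the non-leading monomials -/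
theorem indep {I : Ideal R} {y : Fin n → R} (F : Submodule k R) : ∀ (N : ℕ)
    (D : Finset (Fin n → ℕ)), D.card = N →
    (∀ b ∈ D, b ∉ Ex k I y ∧ F ≤ Ik k I ⊔ G k y b) →
    LinearIndepOn k (fun b => F.mkQ (mon y b)) (D : Set (Fin n → ℕ)) := by
  intro N
  induction N with
  | zero =>
    intro D hc _
    rw [Finset.card_eq_zero.1 hc]
    simp
  | succ N ih =>
    intro D hc hD
    have hne : D.Nonempty := Finset.card_pos.1 (by omega)
    obtain ⟨b, hb, hmin⟩ := Finset.exists_min_image D toLex hne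
    have hD' : D = insert b (D.erase b) := (Finset.insert_erase hb).symm
    rw [hD', Finset.coe_insert]
    apply LinearIndepOn.insert
    · exact ih _ (by rw [Finset.card_erase_of_mem hb]; omega)
        (fun c hc' => hD c (Finset.mem_of_mem_erase hc'))
    · intro hmem
      apply (hD b hb).1
      have h1 : (fun b => F.mkQ (mon y b)) '' (D.erase b : Finset (Fin n → ℕ))
          = F.mkQ '' (mon y '' (D.erase b : Finset (Fin n → ℕ))) := by
        rw [Set.image_image]
      rw [h1, span_image] at hmem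
      obtain ⟨f, hf, hfe⟩ := hmem
      have h2 : mon y b - f ∈ F := by
        rw [← Submodule.Quotient.mk_eq_zero F, Submodule.Quotient.mk_sub, sub_eq_zero]
        exact hfe.symm
      have h3 : F ≤ Ik k I ⊔ G k y b := (hD b hb).2
      have h4 : f ∈ G k y b := by
        refine (span_mono (Set.image_mono ?_)) hf
        intro c hc'
        have hc'' := Finset.mem_coe.1 hc'
        have h5 := hmin c (Finset.mem_of_mem_erase hc'')
        have h6 : lxe b c := h5
        rcases lxe_iff.1 h6 with h7 | h7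
        · exact absurd h7.symm (Finset.ne_of_mem_erase hc'')
        · exact h7
      have h8 : mon y b = (mon y b - f) + f := by ring
      rw [mem_Ex, h8]
      exact add_mem (h3 h2) (mem_sup_right h4)

/-- lower bound for the number of vectors needed to complement `I + G a` -/
theorem card_le_of_cov {I : Ideal R} {y : Fin n → R} {a : Fin n → ℕ} (T : Finset R)
    (hT : (Ik k I ⊔ G k y a) ⊔ span k (T : Set R) = ⊤) (D : Finset (Fin n → ℕ))
    (hD : ∀ b ∈ D, b ∉ Ex k I y ∧ lxe b a) : D.card ≤ T.card := by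
  set F : Submodule k R := Ik k I ⊔ G k y a with hF
  have hspan : span k (F.mkQ '' (T : Set R)) = ⊤ := by
    rw [span_image, eq_top_iff]
    rintro x -
    obtain ⟨r, rfl⟩ := F.mkQ_surjective x
    have hr : r ∈ F ⊔ span k (T : Set R) := by rw [hT]; trivial
    obtain ⟨j, hj, f, hf, rfl⟩ := mem_sup.1 hr
    rw [map_add, show F.mkQ j = 0 from (Submodule.Quotient.mk_eq_zero F).2 hj, zero_add]
    exact ⟨f, hf, rfl⟩
  have : Module.Finite k (R ⧸ F) := ⟨⟨T.image F.mkQ, by simpa using hspan⟩⟩
  have hfr : Module.finrank k (R ⧸ F) ≤ T.card := by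
    have := finrank_span_finset_le_card (R := k) (T.image F.mkQ)
    rw [Set.finrank, Finset.coe_image, hspan, finrank_top] at this
    exact this.trans Finset.card_image_le
  have h1 := indep (I := I) (y := y) F _ D rfl (fun b hb => ⟨(hD b hb).1,
    sup_le_sup_left (G_anti y (hD b hb).2) _⟩)
  have h2 : D.card ≤ Module.finrank k (R ⧸ F) := by
    have := LinearIndependent.fintype_card_le_finrank h1
    simpa using this
  exact h2.trans hfr

/-- the ideal `I + (monomials ≥ a)` -/
def Jge (I : Ideal R) (y : Fin n → R) (hspan : Ik k I ⊔ span k (Set.range (mon y)) = ⊤)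
    (a : Fin n → ℕ) : Ideal R :=
  { (Ik k I ⊔ Ge k y a : Submodule k R) with
    smul_mem' := by
      intro r x hx
      have hr : r ∈ Ik k I ⊔ span k (Set.range (mon y)) := by rw [hspan]; trivial
      have hx' : x ∈ Ik k I ⊔ Ge k y a := hx
      show r * x ∈ Ik k I ⊔ Ge k y a
      obtain ⟨i, hi, f, hf, rfl⟩ := mem_sup.1 hr
      obtain ⟨j, hj, g, hg, rfl⟩ := mem_sup.1 hx'
      have h1 : (i + f) * (j + g) = (i * (j + g) + f * j) + f * g := by ring
      rw [h1]
      refine add_mem (mem_sup_left (I.add_mem (I.mul_mem_right _ hi) (I.mul_mem_left _ hj)))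
        (mem_sup_right ?_)
      have h2 : span k (Set.range (mon y)) * Ge k y a ≤ Ge k y a := by
        rw [Ge, span_mul_span]
        apply span_mono
        rintro _ ⟨_, ⟨c, rfl⟩, _, ⟨d, hd, rfl⟩, rfl⟩
        refine ⟨d + c, lxe_lxe hd (lxe_add_right d c), ?_⟩
        rw [mon_add, mul_comm]
      exact h2 (mul_mem_mul hf hg) }

theorem mem_Jge {I : Ideal R} {y : Fin n → R} {hspan : Ik k I ⊔ span k (Set.range (mon y)) = ⊤}
    {a : Fin n → ℕ} {x : R} : x ∈ Jge I y hspan a ↔ x ∈ Ik k I ⊔ Ge k y a := Iff.rfl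

/-- lower bound for the length -/
theorem card_le_length {y : Fin n → R} : ∀ (N : ℕ) (I : Ideal R) (D : Finset (Fin n → ℕ)),
    Ik k I ⊔ span k (Set.range (mon y)) = ⊤ → D.card = N → (∀ b ∈ D, b ∉ Ex k I y) →
    (D.card : ℕ∞) ≤ Order.coheight I := by
  intro N
  induction N with
  | zero => intro I D _ h _; rw [h]; simp
  | succ N ih =>
    intro I D hspan hc hD
    have hne : D.Nonempty := Finset.card_pos.1 (by omega)
    obtain ⟨a, ha, hmax⟩ := Finset.exists_max_image D toLex hne
    have hle : I ≤ Jge I y hspan a := fun x hx => mem_Jge.2 (mem_sup_left hx)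
    have hmon : mon y a ∈ Jge I y hspan a := mem_Jge.2 (mem_sup_right (mon_mem_Ge y (lxe_refl a)))
    have hlt : I < Jge I y hspan a := by
      refine lt_of_le_of_ne hle (fun h => hD a ha ?_)
      rw [← h] at hmon
      exact mem_sup_left hmon
    have h1 : ((D.erase a).card : ℕ∞) ≤ Order.coheight (Jge I y hspan a) := by
      apply ih
      · rw [eq_top_iff, ← hspan]
        exact sup_le_sup_right (fun x hx => hle hx) _
      · rw [Finset.card_erase_of_mem ha]; omega
      · intro b hb hbE
        apply hD b (Finset.mem_of_mem_erase hb)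
        have hba : lx b a := by
          have h2 : lxe b a := hmax b (Finset.mem_of_mem_erase hb)
          rcases lxe_iff.1 h2 with h3 | h3
          · exact absurd h3 (Finset.ne_of_mem_erase hb)
          · exact h3
        have h3 : Ik k (Jge I y hspan a) ⊔ G k y b ≤ Ik k I ⊔ G k y b := by
          apply sup_le _ le_sup_right
          intro x hx
          exact supR (Ge_le_G y hba) (mem_Jge.1 (show x ∈ Jge I y hspan a from hx))
        exact h3 hbE
    have h2 := Order.coheight_add_one_le hlt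
    refine le_trans ?_ h2
    have h3 : D.card = (D.erase a).card + 1 := (Finset.card_erase_add_one ha).symm
    rw [h3]
    push_cast
    exact add_le_add_left h1 1

end lead

end Pool.Agent.Q57.SL
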