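import Pool.Agent.Q57.SL.PS

set_option autoImplicit false

/-! The Stirling-number refinement of Lech's inequality. -/

namespace Pool.Agent.Q57.SL

open Submodule
open scoped Classical Pointwise

theorem limit_bound {c u K C0 : ℕ} (L : ℕ → ℕ)
    (h : ∀ N, (N + C0 + 1) * (c.factorial * L N) ≤ (N + C0 + 1) ^ (c + 1) * u + K * (N + C0 + 1) ^ c)
    (e : ℝ) (ht : Filter.Tendsto (fun n : ℕ => ((c.factorial : ℝ) * (L n : ℝ)) / (n : ℝ) ^ c)
      Filter.atTop (nhds e)) : e ≤ u := by
  have h1 : Filter.Tendsto (fun n : ℕ => ((1 : ℝ) + ((C0 : ℝ) + 1) / (n : ℝ)) ^ c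
      * ((u : ℝ) + (K : ℝ) / ((n : ℝ) + C0 + 1))) Filter.atTop (nhds ((1 + 0) ^ c * ((u : ℝ) + 0))) := by
    apply Filter.Tendsto.mul
    · apply Filter.Tendsto.pow
      exact tendsto_const_nhds.add (tendsto_const_div_atTop_nhds_zero_nat _)
    · refine tendsto_const_nhds.add ?_
      refine Filter.Tendsto.div_atTop tendsto_const_nhds ?_
      exact Filter.tendsto_atTop_add_const_right _ _
        (Filter.tendsto_atTop_add_const_right _ _ tendsto_natCast_atTop_atTop)
  rw [add_zero, one_pow, one_mul, add_zero] at h1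
  refine le_of_tendsto_of_tendsto ht h1 ?_
  filter_upwards [Filter.eventually_gt_atTop 0] with n hn
  have hn' : (0 : ℝ) < n := Nat.cast_pos.2 hn
  have hM : (0 : ℝ) < (n : ℝ) + C0 + 1 := by positivity
  have h2 : ((n : ℝ) + C0 + 1) * ((c.factorial : ℝ) * L n)
      ≤ ((n : ℝ) + C0 + 1) ^ (c + 1) * u + K * ((n : ℝ) + C0 + 1) ^ c := by exact_mod_cast h n
  have h3 : (c.factorial : ℝ) * L n ≤ ((n : ℝ) + C0 + 1) ^ c * (u + K / ((n : ℝ) + C0 + 1)) := by
    have h4 : ((n : ℝ) + C0 + 1) * ((c.factorial : ℝ) * L n)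
        ≤ ((n : ℝ) + C0 + 1) * (((n : ℝ) + C0 + 1) ^ c * (u + K / ((n : ℝ) + C0 + 1))) := by
      refine h2.trans (le_of_eq ?_)
      field_simp
      try ring
    exact le_of_mul_le_mul_left h4 hM
  rw [div_le_iff₀ (pow_pos hn' c)]
  refine h3.trans (le_of_eq ?_)
  have h5 : (1 + ((C0 : ℝ) + 1) / (n : ℝ)) ^ c * (n : ℝ) ^ c = ((n : ℝ) + C0 + 1) ^ c := by
    rw [← mul_pow]
    congr 1
    field_simp
    try ring
  rw [← h5]
  ring

theorem main (k : Type) [Field k] [Infinite k] (d : ℕ) (I : Ideal (MvPowerSeries (Fin (d+1)) k))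
    (hI : I.radical = Ideal.span (Set.range (MvPowerSeries.X : Fin (d+1) → MvPowerSeries (Fin (d+1)) k))) :
    ∃ P : MvPolynomial (Fin d × Fin (d+1)) k, P ≠ 0 ∧
      ∀ c : Fin d → Fin (d+1) → k, MvPolynomial.eval (fun p => c p.1 p.2) P ≠ 0 →
        ∀ e : Fin d → ℝ,
          (∀ i : Fin d, Filter.Tendsto
            (fun n : ℕ => ((Nat.factorial (d+1-i.val) : ℝ) *
              ((Module.length (MvPowerSeries (Fin (d+1)) k)
                (MvPowerSeries (Fin (d+1)) k ⧸
                  (I ^ n ⊔ Ideal.span {f : MvPowerSeries (Fin (d+1)) k |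
                    ∃ j : Fin d, j.val < i.val ∧
                      f = ∑ t : Fin (d+1), c j t • (MvPowerSeries.X t : MvPowerSeries (Fin (d+1)) k)}))).toNat : ℝ))
              / (n : ℝ) ^ (d+1-i.val))
            Filter.atTop (nhds (e i))) →
          ∑ i : Fin d, ((ascPochhammer ℕ (d+1)).coeff (d+1-i.val) : ℝ) * e i
            ≤ (Nat.factorial (d+1) : ℝ) *
              ((Module.length (MvPowerSeries (Fin (d+1)) k)
                (MvPowerSeries (Fin (d+1)) k ⧸ I)).toNat : ℝ) := by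
  obtain ⟨s, hs⟩ := I.exists_radical_pow_le_of_fg (by
    rw [hI]; exact ⟨Finset.univ.image MvPowerSeries.X, by simp⟩)
  rw [hI] at hs
  have hs' : mI k (d+1) ^ s ≤ I := hs
  obtain ⟨P, hP0, hP⟩ := generic_exists (k := k) (x := (MvPowerSeries.X : Fin (d+1) → MvPowerSeries (Fin (d+1)) k))
    (hnil_ps hs') (hspan_ps hs')
  obtain ⟨Q, r, hQ0, hQ⟩ := rows_exists P hP0
  refine ⟨Q, hQ0, fun c hc e he => ?_⟩
  obtain ⟨hdet, hWB⟩ := hP (ext c r) (hQ c hc)
  set y : Fin (d+1) → MvPowerSeries (Fin (d+1)) k := yC MvPowerSeries.X (ext c r) with hy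
  set E := Ex k I y with hE
  -- upper bounds for the multiplicities
  have hup : ∀ i : Fin d, e i ≤ (u s (d+1-i.val) (top (SE E) i.val) : ℝ) := by
    intro i
    have hn : d + 1 = (d + 1 - i.val) + i.val := by have := i.2; omega
    obtain ⟨C0, hC0⟩ := length_section_le hn hs' (ext c r) hdet hWB
    obtain ⟨K, hK⟩ := m_scale s (d+1-i.val) (top (SE E) i.val)
    refine limit_bound (C0 := C0) (K := K) _ (fun N => ?_) (e i) (he i)
    refine le_trans ?_ (hK (N + C0 + 1) (Nat.succ_pos _))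
    apply Nat.mul_le_mul_left
    apply Nat.mul_le_mul_left
    apply ENat.toNat_le_of_le_natCast
    refine hC0 N _ le_sup_left ?_
    intro l hl
    refine Ideal.mem_sup_right (Ideal.subset_span ?_)
    have hld : l.val < d := hl.trans i.2
    refine ⟨⟨l.val, hld⟩, hl, ?_⟩
    simp only [yC, ext, Matrix.of_apply, dif_pos hld]
  -- the length of R / I
  have hlen : (m s (d+1) (SE E)) ≤
      (Module.length (MvPowerSeries (Fin (d+1)) k) (MvPowerSeries (Fin (d+1)) k ⧸ I)).toNat := by
    have h1 := m_SE_le (E := E) s (box (d+1) s) (by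
      intro b hb
      by_contra hbox
      exact hb (mem_sup_left (hnil_ps hs' _ b (sum_of_not_mem_box hbox))))
    have h2 := card_le_length (k := k) (y := y) _ I ((box (d+1) s).filter (· ∉ E)) (hspan_ps hs' _ hdet) rfl
      (fun b hb => (Finset.mem_filter.1 hb).2)
    rw [← Module.length_quotient] at h2
    have h3 := length_le (k := k) (J := I) (y := y) (s := s) (hnil_ps hs' _) (hspan_ps hs' _ hdet)
    have h4 : Module.length (MvPowerSeries (Fin (d+1)) k) (MvPowerSeries (Fin (d+1)) k ⧸ I) ≠ ⊤ :=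
      ne_top_of_le_ne_top (ENat.natCast_ne_top _) h3
    refine h1.trans ?_
    rw [← ENat.natCast_toNat h4] at h2
    exact_mod_cast h2
  -- the combinatorial inequality
  have hcomb : A s (d+1) (SE E) ≤ (d+1).factorial * m s (d+1) (SE E) := A_le s (d+1) (SE_closed E)
  have hsum : ∑ i : Fin d, (ascPochhammer ℕ (d+1)).coeff (d+1-i.val) * u s (d+1-i.val) (top (SE E) i.val)
      ≤ A s (d+1) (SE E) := by
    unfold A
    have h1 : ∑ i : Fin d, (ascPochhammer ℕ (d+1)).coeff (d+1-i.val) * u s (d+1-i.val) (top (SE E) i.val)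
        = ∑ c ∈ (Finset.univ : Finset (Fin d)).image (fun i => d+1-i.val),
          (ascPochhammer ℕ (d+1)).coeff c * u s c (top (SE E) (d+1-c)) := by
      rw [Finset.sum_image]
      · apply Finset.sum_congr rfl
        intro i _
        have : d + 1 - (d + 1 - i.val) = i.val := by have := i.2; omega
        rw [this]
      · intro i _ j _ hij
        have h2 := i.2
        have h3 := j.2
        apply Fin.ext
        simp only at hij
        omega
    rw [h1]
    apply Finset.sum_le_sum_of_subset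
    intro c hc'
    obtain ⟨i, _, rfl⟩ := Finset.mem_image.1 hc'
    rw [Finset.mem_range]
    omega
  calc ∑ i : Fin d, ((ascPochhammer ℕ (d+1)).coeff (d+1-i.val) : ℝ) * e i
      ≤ ∑ i : Fin d, ((ascPochhammer ℕ (d+1)).coeff (d+1-i.val) : ℝ)
          * (u s (d+1-i.val) (top (SE E) i.val) : ℝ) := by
        apply Finset.sum_le_sum
        intro i _
        exact mul_le_mul_of_nonneg_left (hup i) (Nat.cast_nonneg _)
    _ ≤ (A s (d+1) (SE E) : ℝ) := by exact_mod_cast hsum
    _ ≤ ((d+1).factorial : ℝ) * (m s (d+1) (SE E) : ℝ) := by exact_mod_cast hcomb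
    _ ≤ _ := by
        apply mul_le_mul_of_nonneg_left _ (Nat.cast_nonneg _)
        exact_mod_cast hlen

end Pool.Agent.Q57.SL
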