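import Pool.Agent.Q57.SL.Gen

set_option autoImplicit false

/-! Power series rings: verification of the hypotheses. -/

namespace Pool.Agent.Q57.SL

open Submodule
open scoped Classical Pointwise

section ps
variable {k : Type*} [Field k] {n : ℕ}

/-- the maximal ideal -/
noncomputable def mI (k : Type*) [Field k] (n : ℕ) : Ideal (MvPowerSeries (Fin n) k) :=
  Ideal.span (Set.range (MvPowerSeries.X : Fin n → MvPowerSeries (Fin n) k))

theorem yC_mem {x : Fin n → MvPowerSeries (Fin n) k} (hx : x = MvPowerSeries.X)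
    (C : Matrix (Fin n) (Fin n) k) (i : Fin n) : yC x C i ∈ mI k n := by
  subst hx
  unfold yC
  apply Ideal.sum_mem
  intro t _
  rw [Algebra.smul_def]
  exact Ideal.mul_mem_left _ _ (Ideal.subset_span ⟨t, rfl⟩)

theorem mon_mem_pow {R : Type*} [CommRing R] (m : Ideal R) (y : Fin n → R) (hy : ∀ i, y i ∈ m) (b : Fin n → ℕ) :
    mon y b ∈ m ^ (∑ i, b i) := by
  unfold mon
  rw [← Finset.prod_pow_eq_pow_sum]
  exact Ideal.prod_mem_prod (fun i _ => Ideal.pow_mem_pow (hy i) _)

theorem hnil_ps {J : Ideal (MvPowerSeries (Fin n) k)} {s : ℕ} (hJ : mI k n ^ s ≤ J)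
    (C : Matrix (Fin n) (Fin n) k) (b : Fin n → ℕ) (hb : s ≤ ∑ i, b i) :
    mon (yC (MvPowerSeries.X : Fin n → MvPowerSeries (Fin n) k) C) b ∈ J :=
  hJ (Ideal.pow_le_pow_right hb (mon_mem_pow _ _ (yC_mem rfl C) b))

theorem mem_pow_of_box (s : ℕ) (T : Finset (Fin n)) : ∀ f : MvPowerSeries (Fin n) k,
    (∀ b : Fin n →₀ ℕ, (∀ i ∈ T, b i < s) → MvPowerSeries.coeff b f = 0) → f ∈ mI k n ^ s := by
  induction T using Finset.induction_on with
  | empty =>
    intro f hf
    have : f = 0 := by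
      ext b
      rw [hf b (by simp)]; simp
    rw [this]; exact zero_mem _
  | insert i T _ ih =>
    intro f hf
    let f1 : MvPowerSeries (Fin n) k := fun b => if s ≤ b i then MvPowerSeries.coeff b f else 0
    let f2 : MvPowerSeries (Fin n) k := fun b => if s ≤ b i then 0 else MvPowerSeries.coeff b f
    have h12 : f = f1 + f2 := by
      ext b
      rw [map_add]
      show _ = (if s ≤ b i then MvPowerSeries.coeff b f else 0) + (if s ≤ b i then 0 else MvPowerSeries.coeff b f)
      split_ifs <;> simp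
    have h1 : f1 ∈ mI k n ^ s := by
      have hd : (MvPowerSeries.X i : MvPowerSeries (Fin n) k) ^ s ∣ f1 := by
        rw [MvPowerSeries.X_pow_dvd_iff]
        intro m hm
        show (if s ≤ m i then MvPowerSeries.coeff m f else 0) = 0
        rw [if_neg (by omega)]
      have hX : (MvPowerSeries.X i : MvPowerSeries (Fin n) k) ∈ mI k n :=
        Ideal.subset_span ⟨i, rfl⟩
      exact Ideal.mem_of_dvd _ hd (Ideal.pow_mem_pow hX _)
    have h2 : f2 ∈ mI k n ^ s := by
      apply ih
      intro b hb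
      show (if s ≤ b i then 0 else MvPowerSeries.coeff b f) = 0
      split_ifs with h
      · rfl
      · apply hf
        intro j hj
        rcases Finset.mem_insert.1 hj with rfl | hj
        · omega
        · exact hb j hj
    rw [h12]
    exact add_mem h1 h2

theorem mon_X (b : Fin n → ℕ) :
    mon (MvPowerSeries.X : Fin n → MvPowerSeries (Fin n) k) b
      = MvPowerSeries.monomial (Finsupp.equivFunOnFinite.symm b) 1 := by
  rw [MvPowerSeries.monomial_one_eq, Finsupp.prod_fintype _ _ (by simp)]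
  rfl

theorem hspan_X {J : Ideal (MvPowerSeries (Fin n) k)} {s : ℕ} (hJ : mI k n ^ s ≤ J) :
    Ik k J ⊔ span k (Set.range (mon (MvPowerSeries.X : Fin n → MvPowerSeries (Fin n) k))) = ⊤ := by
  rw [eq_top_iff]
  rintro f -
  let g : MvPowerSeries (Fin n) k := ∑ b ∈ box n s,
    MvPowerSeries.coeff (Finsupp.equivFunOnFinite.symm b) f • mon MvPowerSeries.X b
  have h1 : f - g ∈ J := by
    apply hJ
    apply mem_pow_of_box s Finset.univ
    intro b hb
    rw [map_sub, sub_eq_zero]
    have hbb : Finsupp.equivFunOnFinite b ∈ box n s := mem_box.2 (fun l => hb l (Finset.mem_univ l))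
    simp only [g, map_sum, mon_X]
    rw [Finset.sum_eq_single (Finsupp.equivFunOnFinite b)]
    · rw [Equiv.symm_apply_apply, MvPowerSeries.coeff_smul, MvPowerSeries.coeff_monomial_same, mul_one]
    · intro c _ hc
      rw [MvPowerSeries.coeff_smul, MvPowerSeries.coeff_monomial_ne, mul_zero]
      intro h
      apply hc
      rw [h, Equiv.apply_symm_apply]
    · intro h; exact absurd hbb h
  have h2 : g ∈ span k (Set.range (mon (MvPowerSeries.X : Fin n → MvPowerSeries (Fin n) k))) := by
    apply sum_mem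
    intro b _
    exact smul_mem _ _ (subset_span ⟨b, rfl⟩)
  have : f = (f - g) + g := by ring
  rw [this]
  exact add_mem (mem_sup_left h1) (mem_sup_right h2)

theorem span_mon_mul {R : Type*} [CommRing R] [Algebra k R] (y : Fin n → R) {f g : R}
    (hf : f ∈ span k (Set.range (mon y))) (hg : g ∈ span k (Set.range (mon y))) :
    f * g ∈ span k (Set.range (mon y)) := by
  have h1 : span k (Set.range (mon y)) * span k (Set.range (mon y)) ≤ span k (Set.range (mon y)) := by
    rw [span_mul_span]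
    apply span_mono
    rintro _ ⟨_, ⟨c, rfl⟩, _, ⟨d, rfl⟩, rfl⟩
    exact ⟨c + d, mon_add y c d⟩
  exact h1 (mul_mem_mul hf hg)

theorem span_mon_le {R : Type*} [CommRing R] [Algebra k R] (x : Fin n → R)
    (C : Matrix (Fin n) (Fin n) k) (hC : C.det ≠ 0) :
    span k (Set.range (mon x)) ≤ span k (Set.range (mon (yC x C))) := by
  set y := yC x C with hy
  have hone : (1 : R) ∈ span k (Set.range (mon y)) := subset_span ⟨0, mon_zero y⟩
  have hy1 : ∀ i, y i ∈ span k (Set.range (mon y)) := fun i =>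
    subset_span ⟨Pi.single i 1, by rw [mon_single, pow_one]⟩
  have hx1 : ∀ t, x t ∈ span k (Set.range (mon y)) := by
    intro t
    have h1 : x t = ∑ i, C⁻¹ t i • y i := by
      have h2 : C⁻¹ * C = 1 := Matrix.nonsing_inv_mul C (Ne.isUnit hC)
      calc x t = ∑ l, (1 : Matrix (Fin n) (Fin n) k) t l • x l := by simp [Matrix.one_apply]
        _ = ∑ l, (∑ i, C⁻¹ t i * C i l) • x l := by rw [← h2]; simp [Matrix.mul_apply]
        _ = ∑ i, C⁻¹ t i • ∑ l, C i l • x l := by
          simp only [Finset.sum_smul, Finset.smul_sum, mul_smul]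
          rw [Finset.sum_comm]
        _ = _ := rfl
    rw [h1]
    exact sum_mem (fun i _ => smul_mem _ _ (hy1 i))
  have hpow : ∀ t (e : ℕ), x t ^ e ∈ span k (Set.range (mon y)) := by
    intro t e
    induction e with
    | zero => rw [pow_zero]; exact hone
    | succ e ih => rw [pow_succ]; exact span_mon_mul y ih (hx1 t)
  rw [span_le]
  rintro _ ⟨b, rfl⟩
  have : ∀ S : Finset (Fin n), ∏ i ∈ S, x i ^ b i ∈ span k (Set.range (mon y)) := by
    intro S
    induction S using Finset.induction_on with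
    | empty => rw [Finset.prod_empty]; exact hone
    | insert i S hi ih => rw [Finset.prod_insert hi]; exact span_mon_mul y (hpow _ _) ih
  exact this Finset.univ

theorem hspan_ps {J : Ideal (MvPowerSeries (Fin n) k)} {s : ℕ} (hJ : mI k n ^ s ≤ J)
    (C : Matrix (Fin n) (Fin n) k) (hC : C.det ≠ 0) :
    Ik k J ⊔ span k (Set.range (mon (yC (MvPowerSeries.X : Fin n → MvPowerSeries (Fin n) k) C))) = ⊤ := by
  rw [eq_top_iff, ← hspan_X hJ]
  exact sup_le_sup_left (span_mon_le _ C hC) _

end ps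

section main
variable {k : Type*} [Field k]

theorem card_notQ_le' {n c i : ℕ} (hn : n = c + i) {E : Set (Fin n → ℕ)}
    (hE : ∀ i' j : Fin n, i' < j → ∀ v ∈ E, mv i' j v ∈ E)
    {s : ℕ} (hs : ∀ v : Fin n → ℕ, s ≤ ∑ i, v i → v ∈ E)
    {N : ℕ} (hN : 0 < N) (F : Finset (Fin n → ℕ))
    (hF : ∀ b ∈ F, (∀ l : Fin n, l.val < i → b l = 0) ∧ ¬ Q E N b) :
    F.card ≤ m (s * N) c (scale N (top (SE E) i)) := by
  subst hn
  exact card_notQ_le hE hs hN F hF

/-- upper bound for the length of `R / (I^N + (y_0, …, y_{i-1}))` -/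
theorem length_section_le {n c i : ℕ} (hn : n = c + i) {I : Ideal (MvPowerSeries (Fin n) k)} {s : ℕ}
    (hI : mI k n ^ s ≤ I) (C : Matrix (Fin n) (Fin n) k) (hC : C.det ≠ 0)
    (hWB : ∀ i' j : Fin n, i' < j → ∀ a ∈ Ex k I (yC MvPowerSeries.X C), mv i' j a ∈ Ex k I (yC MvPowerSeries.X C)) :
    ∃ C0 : ℕ, ∀ (N : ℕ) (J : Ideal (MvPowerSeries (Fin n) k)), I ^ N ≤ J →
      (∀ l : Fin n, l.val < i → yC MvPowerSeries.X C l ∈ J) →
      Module.length (MvPowerSeries (Fin n) k) (MvPowerSeries (Fin n) k ⧸ J)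
        ≤ m (s * (N + C0 + 1)) c (scale (N + C0 + 1) (top (SE (Ex k I (yC MvPowerSeries.X C))) i)) := by
  set y : Fin n → MvPowerSeries (Fin n) k := yC MvPowerSeries.X C with hy
  set E := Ex k I y with hE
  have hs : ∀ v : Fin n → ℕ, s ≤ ∑ i, v i → v ∈ E := fun v hv => mem_sup_left (hnil_ps hI C v hv)
  obtain ⟨C0, hC0⟩ := Q_approx hs
  refine ⟨C0, fun N J hJ hl => ?_⟩
  have hJ' : mI k n ^ (s * N) ≤ J := by
    refine le_trans ?_ hJ
    rw [pow_mul]
    exact Ideal.pow_right_mono hI N
  have h1 := length_le (k := k) (J := J) (y := y) (s := s * N) (hnil_ps hJ' C) (hspan_ps hJ' C hC)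
  refine h1.trans ?_
  refine Nat.cast_le.2 (card_notQ_le' hn hWB hs (Nat.succ_pos _) _ ?_)
  intro b hb
  have hbE := (Finset.mem_filter.1 hb).2
  refine ⟨fun l hl' => ?_, fun hQ => ?_⟩
  · by_contra hne
    apply hbE
    refine mem_sup_left ?_
    have hd : y l ∣ mon y b := by
      unfold mon
      exact (dvd_pow_self _ hne).trans (Finset.dvd_prod_of_mem _ (Finset.mem_univ l))
    exact Ideal.mem_of_dvd _ hd (hl l hl')
  · apply hbE
    obtain ⟨W, hW1, hW2, hW3⟩ := hC0 _ _ hQ
    exact Ex_mono hJ y (Ex_pow' hW1 (by omega) hW2)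

end main

end Pool.Agent.Q57.SL
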