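import Pool.Agent.Q57.SL.Lead
import Pool.Agent.Q57.SL.Expo

set_option autoImplicit false

/-! Weak Borel property of the leading exponents for generic linear forms. -/

namespace Pool.Agent.Q57.SL

open Submodule
open scoped Classical Pointwise

section wb
variable {k R : Type*} [Field k] [CommRing R] [Algebra k R] {n : ℕ}

theorem mon_single (y : Fin n → R) (i : Fin n) (c : ℕ) : mon y (Pi.single i c) = y i ^ c := by
  unfold mon
  rw [Finset.prod_eq_single i]
  · simp
  · intro j _ hj; simp [Pi.single_apply, hj]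
  · intro h; exact absurd (Finset.mem_univ i) h

/-- move `c` from `i` to `j` -/
def sh (i j : Fin n) (c : ℕ) (b : Fin n → ℕ) : Fin n → ℕ :=
  fun l => if l = i then b i - c else if l = j then b j + c else b l

theorem sh_full (i j : Fin n) (b : Fin n → ℕ) : sh i j (b i) b = mv i j b := by
  funext l; simp [sh, mv]

theorem sh_zero (i j : Fin n) (b : Fin n → ℕ) : sh i j 0 b = b := by
  funext l
  simp only [sh, Nat.sub_zero, Nat.add_zero]
  split_ifs with h1 h2
  · rw [h1]
  · rw [h2]
  · rfl

/-- the zeroed exponent -/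
def zr (i : Fin n) (b : Fin n → ℕ) : Fin n → ℕ := fun l => if l = i then 0 else b l

theorem sh_eq {i j : Fin n} (hij : i ≠ j) {c : ℕ} {b : Fin n → ℕ} :
    sh i j c b = zr i b + (Pi.single i (b i - c) + Pi.single j c) := by
  funext l
  simp only [sh, zr, Pi.add_apply, Pi.single_apply]
  by_cases h1 : l = i
  · subst h1; simp [hij]
  · by_cases h2 : l = j
    · subst h2; simp [h1]
    · simp [h1, h2]

theorem self_eq {i : Fin n} {b : Fin n → ℕ} : b = zr i b + Pi.single i (b i) := by
  funext l
  simp only [zr, Pi.add_apply, Pi.single_apply]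
  by_cases h1 : l = i
  · subst h1; simp
  · simp [h1]

theorem mon_zr {y y' : Fin n → R} {i : Fin n} (h : ∀ l, l ≠ i → y l = y' l) (b : Fin n → ℕ) :
    mon y (zr i b) = mon y' (zr i b) := by
  unfold mon
  apply Finset.prod_congr rfl
  intro l _
  by_cases h1 : l = i
  · subst h1; simp [zr]
  · rw [h l h1]

/-- binomial expansion of a monomial -/
theorem mon_expand {y y' : Fin n → R} {i j : Fin n} (hij : i ≠ j) (σ : k)
    (hi : y i = y' i + σ • y' j) (h : ∀ l, l ≠ i → y l = y' l) (b : Fin n → ℕ) :
    mon y b = ∑ c ∈ Finset.range (b i + 1), (((b i).choose c : k) * σ ^ c) • mon y' (sh i j c b) := by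
  conv_lhs => rw [self_eq (i := i) (b := b), mon_add, mon_single, mon_zr h, hi, add_comm (y' i), add_pow]
  rw [Finset.mul_sum]
  apply Finset.sum_congr rfl
  intro c _
  rw [sh_eq hij, mon_add, mon_add, mon_single, mon_single, smul_pow]
  simp only [Algebra.smul_def, map_mul, map_pow, map_natCast]
  ring

theorem key_lex {i j : Fin n} (hij : i < j) {a b : Fin n → ℕ} (hb : b = a ∨ lx a b) {c : ℕ}
    (hc : c ≤ b i) (h : lxe (sh i j c b) (mv i j a)) : c = b i ∧ (b = a ∨ a i < b i) := by
  by_contra hcon
  apply (not_lxe.2 ?_) h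
  rw [lx_iff]
  have hlow : ∀ l, l < i → mv i j a l = a l ∧ sh i j c b l = b l := by
    intro l hl
    have h1 : l ≠ i := hl.ne
    have h2 : l ≠ j := (hl.trans hij).ne
    simp [mv, sh, h1, h2]
  have hi1 : mv i j a i = 0 := by simp [mv]
  have hi2 : sh i j c b i = b i - c := by simp [sh]
  by_cases hci : c < b i
  · -- witness at index at most i
    by_cases hbelow : ∀ l, l < i → a l = b l
    · refine ⟨i, fun l hl => ?_, ?_⟩
      · rw [(hlow l hl).1, (hlow l hl).2, hbelow l hl]
      · rw [hi1, hi2]; omega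
    · rcases hb with rfl | hb
      · exact absurd (fun l _ => rfl) hbelow
      · obtain ⟨l0, h1, h2⟩ := lx_iff.1 hb
        have hl0 : l0 < i := by
          by_contra hnot
          push Not at hnot
          exact hbelow (fun l hl => h1 l (lt_of_lt_of_le hl hnot))
        refine ⟨l0, fun l hl => ?_, ?_⟩
        · rw [(hlow l (hl.trans hl0)).1, (hlow l (hl.trans hl0)).2, h1 l hl]
        · rw [(hlow l0 hl0).1, (hlow l0 hl0).2]; exact h2
  · have hci' : c = b i := le_antisymm hc (not_lt.1 hci)
    have hcon' : ¬ (b = a ∨ a i < b i) := fun h' => hcon ⟨hci', h'⟩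
    push Not at hcon'
    obtain ⟨hne, hle⟩ := hcon'
    have hb' : lx a b := by
      rcases hb with h' | h'
      · exact absurd h' hne
      · exact h'
    obtain ⟨l0, h1, h2⟩ := lx_iff.1 hb'
    rcases lt_trichotomy l0 i with hl | hl | hl
    · refine ⟨l0, fun l hl' => ?_, ?_⟩
      · rw [(hlow l (hl'.trans hl)).1, (hlow l (hl'.trans hl)).2, h1 l hl']
      · rw [(hlow l0 hl).1, (hlow l0 hl).2]; exact h2
    · subst hl; omega
    · have hai : a i = b i := h1 i hl
      refine ⟨l0, fun l hl' => ?_, ?_⟩
      · simp only [mv, sh, hci']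
        have h3 := h1 l hl'
        split_ifs with e1 e2
        · omega
        · subst e2; omega
        · exact h3
      · simp only [mv, sh, hci']
        split_ifs with e1 e2
        · exact absurd e1 hl.ne'
        · subst e2; omega
        · exact h2

/-- a linear system with invertible matrix -/
theorem solve_zero {ι V : Type*} [Fintype ι] [DecidableEq ι] [AddCommGroup V] [Module k V]
    (M : Matrix ι ι k) (hM : M.det ≠ 0) (u : ι → V) (h : ∀ e, ∑ m, M e m • u m = 0) : u = 0 := by
  funext f
  have h1 : M⁻¹ * M = 1 := Matrix.nonsing_inv_mul M (Ne.isUnit hM)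
  calc u f = ∑ m, (1 : Matrix ι ι k) f m • u m := by
        simp [Matrix.one_apply]
    _ = ∑ m, (∑ e, M⁻¹ f e * M e m) • u m := by rw [← h1]; simp [Matrix.mul_apply]
    _ = ∑ e, M⁻¹ f e • ∑ m, M e m • u m := by
        simp only [Finset.sum_smul, Finset.smul_sum, mul_smul]
        rw [Finset.sum_comm]
    _ = 0 := by simp [h]

/-- linear forms -/
def yC (x : Fin n → R) (C : Matrix (Fin n) (Fin n) k) : Fin n → R := fun i => ∑ t, C i t • x t

/-- the number of non-leading exponents up to `a` -/
noncomputable def dl (I : Ideal R) (x : Fin n → R) (s : ℕ) (C : Matrix (Fin n) (Fin n) k) (a : Fin n → ℕ) : ℕ :=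
  ((box n s).filter (fun b => b ∉ Ex k I (yC x C) ∧ lxe b a)).card

theorem yC_update (x : Fin n → R) (C : Matrix (Fin n) (Fin n) k) {i j : Fin n} (hij : i ≠ j) (σ : k) :
    let C' := C.updateRow i (C i + (-σ) • C j)
    yC x C i = yC x C' i + σ • yC x C' j ∧ ∀ l, l ≠ i → yC x C l = yC x C' l := by
  intro C'
  have h1 : ∀ l, l ≠ i → yC x C l = yC x C' l := by
    intro l hl
    simp only [yC, C', Matrix.updateRow_ne hl]
  refine ⟨?_, h1⟩
  rw [← h1 j hij.symm]
  simp only [yC, C', Matrix.updateRow_self]
  rw [Finset.smul_sum, ← Finset.sum_add_distrib]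
  apply Finset.sum_congr rfl
  intro t _
  rw [Pi.add_apply, Pi.smul_apply, smul_eq_mul]
  module

theorem weak_borel [Infinite k] {I : Ideal R} {x : Fin n → R} {s : ℕ}
    (hnil : ∀ (C : Matrix (Fin n) (Fin n) k) (b : Fin n → ℕ), s ≤ ∑ i, b i → mon (yC x C) b ∈ I)
    (hspan : ∀ C : Matrix (Fin n) (Fin n) k, C.det ≠ 0 →
      Ik k I ⊔ span k (Set.range (mon (yC x C))) = ⊤)
    (C : Matrix (Fin n) (Fin n) k) (hC : C.det ≠ 0)
    (hmin : ∀ (a : Fin n → ℕ), a ∈ box n s → ∀ C' : Matrix (Fin n) (Fin n) k, C'.det ≠ 0 →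
      dl I x s C a ≤ dl I x s C' a)
    {i j : Fin n} (hij : i < j) {a : Fin n → ℕ} (ha : a ∈ Ex k I (yC x C)) :
    mv i j a ∈ Ex k I (yC x C) := by
  by_contra hstar
  set y := yC x C with hy
  set as := mv i j a with has
  have hasbox : as ∈ box n s := by
    by_contra h
    exact hstar (mem_sup_left (hnil C as (sum_of_not_mem_box h)))
  -- coefficients
  let Dd : (Fin n → ℕ) → Finset (Fin n → ℕ) := fun e =>
    (box n s).filter (fun d => d ∉ Ex k I y ∧ lx e d)
  have hγ : ∀ e : Fin n → ℕ, ∃ γ : (Fin n → ℕ) → k, e ∈ Ex k I y →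
      mon y e - ∑ d ∈ Dd e, γ d • mon y d ∈ Ik k I := by
    intro e
    by_cases he : e ∈ Ex k I y
    · have h1 := red (k := k) (J := I) (y := y) (s := s) (hnil C) e
      have h2 : {d | d ∈ box n s ∧ d ∉ Ex k I y ∧ lxe e d} = (Dd e : Set (Fin n → ℕ)) := by
        ext d
        simp only [Set.mem_ofPred_eq, Dd, Finset.coe_filter]
        constructor
        · rintro ⟨h3, h4, h5⟩
          refine ⟨h3, h4, ?_⟩
          rcases lxe_iff.1 h5 with h6 | h6
          · rw [← h6] at h4; exact absurd he h4
          · exact h6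
        · rintro ⟨h3, h4, h5⟩
          exact ⟨h3, h4, h5.lxe⟩
      rw [h2] at h1
      obtain ⟨p, hp, q, hq, hpq⟩ := mem_sup.1 h1
      obtain ⟨γ, hγ⟩ := (mem_span_image_finset_iff_exists_fun' k).1 hq
      refine ⟨γ, fun _ => ?_⟩
      rw [hγ, ← hpq, add_sub_cancel_right]
      exact hp
    · exact ⟨0, fun h => absurd h he⟩
  choose γ hγ using hγ
  -- the index set
  let U : Finset (Fin n → ℕ) := (box n s).filter (fun m => lxe m as ∧ (m ∈ Ex k I y ∨ m = as))
  -- polynomials
  let κ : (Fin n → ℕ) → (Fin n → ℕ) → Polynomial k := fun b m =>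
    ∑ c ∈ Finset.range (b i + 1), if sh i j c b = m then
      Polynomial.C (((b i).choose c : k)) * Polynomial.X ^ c else 0
  let Φ : (Fin n → ℕ) → (Fin n → ℕ) → Polynomial k := fun e m =>
    κ e m - ∑ d ∈ Dd e, Polynomial.C (γ e d) * κ d m
  let Ψ : (Fin n → ℕ) → Polynomial k := fun m =>
    (if m = as then 1 else 0) - ∑ d ∈ Dd a, Polynomial.C (γ a d) *
      (if sh i j (d i) d = m then Polynomial.X ^ (d i - a i) else 0)
  have hκ0 : ∀ b m, (κ b m).eval 0 = if b = m then 1 else 0 := by
    intro b m
    simp only [κ]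
    rw [Polynomial.eval_finsetSum, Finset.sum_eq_single 0]
    · rw [sh_zero]
      split_ifs <;> simp
    · intro c _ hc
      split_ifs
      · simp [hc]
      · simp
    · intro h; exact absurd (Finset.mem_range.2 (Nat.succ_pos _)) h
  have hUle : ∀ m ∈ U, lxe m as := fun m hm => (Finset.mem_filter.1 hm).2.1
  have hasa : sh i j (a i) a = as := sh_full i j a
  have hDlt : ∀ d ∈ Dd a, lx a d := fun d hd => (Finset.mem_filter.1 hd).2.2
  have hκd : ∀ b, (b = a ∨ lx a b) → ∀ m ∈ U, κ b m = if sh i j (b i) b = m then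
      Polynomial.X ^ (b i) else 0 := by
    intro b hb m hm
    simp only [κ]
    rw [Finset.sum_eq_single (b i)]
    · simp
    · intro c hc hne
      rw [if_neg]
      intro hsm
      have := key_lex hij hb (Nat.lt_succ_iff.1 (Finset.mem_range.1 hc))
        (by rw [hsm]; exact hUle m hm)
      exact hne this.1
    · intro h; exact absurd (Finset.mem_range.2 (Nat.lt_succ_self _)) h
  have hlt : ∀ d ∈ Dd a, ∀ m ∈ U, sh i j (d i) d = m → a i < d i := by
    intro d hd m hm hsm
    have h1 := key_lex hij (Or.inr (hDlt d hd)) le_rfl (by rw [hsm]; exact hUle m hm)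
    rcases h1.2 with h2 | h2
    · exact absurd (h2 ▸ hDlt d hd) (lx_irrefl _)
    · exact h2
  have hΦΨ : ∀ m ∈ U, Φ a m = Polynomial.X ^ (a i) * Ψ m := by
    intro m hm
    simp only [Φ, Ψ]
    rw [hκd a (Or.inl rfl) m hm, mul_sub, hasa, Finset.mul_sum]
    congr 1
    · by_cases h : m = as
      · rw [if_pos h, if_pos h.symm, mul_one]
      · rw [if_neg h, if_neg (Ne.symm h), mul_zero]
    · apply Finset.sum_congr rfl
      intro d hd
      rw [hκd d (Or.inr (hDlt d hd)) m hm]
      split_ifs with h
      · have := hlt d hd m hm h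
        rw [mul_left_comm, ← pow_add, Nat.add_sub_cancel' this.le]
      · ring
  have hΨ0 : ∀ m ∈ U, (Ψ m).eval 0 = if m = as then 1 else 0 := by
    intro m hm
    simp only [Ψ]
    rw [Polynomial.eval_sub, Polynomial.eval_finsetSum, Finset.sum_eq_zero, sub_zero]
    · split_ifs <;> simp
    · intro d hd
      rw [Polynomial.eval_mul]
      split_ifs with h
      · have := hlt d hd m hm h
        rw [Polynomial.eval_pow, Polynomial.eval_X, zero_pow (by omega), mul_zero]
      · simp
  let M : Matrix U U (Polynomial k) := Matrix.of fun e m =>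
    if (e : Fin n → ℕ) = as then Ψ m else Φ e m
  have hM0 : M.det ≠ 0 := by
    intro hdet
    have h1 : ((Polynomial.evalRingHom (0 : k)).mapMatrix M).det = 0 := by
      rw [← RingHom.map_det, hdet, map_zero]
    let N : Matrix U U k := Matrix.of fun e m =>
      if (m : Fin n → ℕ) = as ∧ (e : Fin n → ℕ) ≠ as then
        (if as ∈ Dd e then γ e as else 0) else 0
    have h2 : (Polynomial.evalRingHom (0 : k)).mapMatrix M = 1 - N := by
      ext e m
      simp only [RingHom.mapMatrix_apply, Matrix.map_apply, Polynomial.coe_evalRingHom, M, N,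
        Matrix.sub_apply, Matrix.one_apply, Matrix.of_apply]
      by_cases he : (e : Fin n → ℕ) = as
      · rw [if_pos he, hΨ0 m m.2, if_neg (c := (m : Fin n → ℕ) = as ∧ (e : Fin n → ℕ) ≠ as)
          (fun h => h.2 he), sub_zero]
        have : (e = m) ↔ ((m : Fin n → ℕ) = as) := by
          rw [Subtype.ext_iff, he]; exact eq_comm
        simp only [this]
      · rw [if_neg he]
        simp only [Φ]
        rw [Polynomial.eval_sub, hκ0, Polynomial.eval_finsetSum]
        congr 1
        · simp only [Subtype.ext_iff]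
        · simp only [Polynomial.eval_mul, Polynomial.eval_C, hκ0, mul_ite, mul_one, mul_zero]
          rw [Finset.sum_ite_eq']
          by_cases hm : (m : Fin n → ℕ) = as
          · rw [if_pos (c := (m : Fin n → ℕ) = as ∧ (e : Fin n → ℕ) ≠ as) ⟨hm, he⟩, hm]
          · rw [if_neg (c := (m : Fin n → ℕ) = as ∧ (e : Fin n → ℕ) ≠ as) (fun h => hm h.1), if_neg]
            intro hmem
            have h3 := (Finset.mem_filter.1 hmem).2.1
            rcases (Finset.mem_filter.1 m.2).2.2 with h4 | h4
            · exact h3 h4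
            · exact hm h4
    have h3 : (1 - N) * (1 + N) = 1 := by
      have : N * N = 0 := by
        ext e m
        rw [Matrix.mul_apply]
        apply Finset.sum_eq_zero
        intro l _
        simp only [N, Matrix.of_apply]
        by_cases hl : (l : Fin n → ℕ) = as
        · rw [if_neg (c := (m : Fin n → ℕ) = as ∧ (l : Fin n → ℕ) ≠ as) (fun h => h.2 hl),
            mul_zero]
        · rw [if_neg (c := (l : Fin n → ℕ) = as ∧ (e : Fin n → ℕ) ≠ as) (fun h => hl h.1),
            zero_mul]
      rw [sub_mul, one_mul, mul_add, mul_one, this]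
      abel
    rw [h2] at h1
    have h4 := congrArg Matrix.det h3
    rw [Matrix.det_mul, h1, zero_mul, Matrix.det_one] at h4
    exact zero_ne_one h4
  -- choose σ
  obtain ⟨σ, hσ0, hσ⟩ : ∃ σ : k, σ ≠ 0 ∧ (M.det).eval σ ≠ 0 := by
    by_contra hcon
    push Not at hcon
    have : Polynomial.X * M.det = 0 := by
      apply Polynomial.zero_of_eval_zero
      intro σ
      rw [Polynomial.eval_mul, Polynomial.eval_X]
      by_cases h : σ = 0
      · rw [h, zero_mul]
      · rw [hcon σ h, mul_zero]
    rcases mul_eq_zero.1 this with h | h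
    · exact Polynomial.X_ne_zero h
    · exact hM0 h
  -- the new coordinates
  set C' := C.updateRow i (C i + (-σ) • C j) with hC'
  have hdet' : C'.det ≠ 0 := by
    rw [hC', Matrix.det_updateRow_add_smul_self _ hij.ne]; exact hC
  obtain ⟨hyi, hyl⟩ := yC_update x C hij.ne σ
  rw [← hC', ← hy] at hyi hyl
  set y' := yC x C' with hy'
  let TT : Finset (Fin n → ℕ) := (box n s).filter (fun b => (b ∉ Ex k I y ∧ lxe b as) ∧ b ≠ as)
  let T : Finset R := TT.image (mon y')
  set W : Submodule k R := (Ik k I ⊔ G k y' as) ⊔ span k (T : Set R) with hW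
  have hX : ∀ m, m ∉ U → W.mkQ (mon y' m) = 0 := by
    intro m hm
    rw [Submodule.mkQ_apply, Submodule.Quotient.mk_eq_zero]
    by_cases h1 : m ∈ box n s
    · by_cases h2 : lxe m as
      · refine mem_sup_right (subset_span ?_)
        have h3 : ¬ (m ∈ Ex k I y ∨ m = as) := fun h => hm (Finset.mem_filter.2 ⟨h1, h2, h⟩)
        push Not at h3
        exact Finset.mem_coe.2 (Finset.mem_image.2 ⟨m, Finset.mem_filter.2 ⟨h1, ⟨h3.1, h2⟩, h3.2⟩, rfl⟩)
      · exact mem_sup_left (mem_sup_right (mon_mem_G y' (not_lxe.1 h2)))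
    · exact mem_sup_left (mem_sup_left (hnil C' m (sum_of_not_mem_box h1)))
  have hexp : ∀ b, W.mkQ (mon y b) = ∑ m : U, (κ b m).eval σ • W.mkQ (mon y' m) := by
    intro b
    rw [mon_expand hij.ne σ hyi hyl b, map_sum]
    have h1 : ∀ m : U, (κ b m).eval σ • W.mkQ (mon y' m)
        = ∑ c ∈ Finset.range (b i + 1), if sh i j c b = m then
          (((b i).choose c : k) * σ ^ c) • W.mkQ (mon y' m) else 0 := by
      intro m
      simp only [κ]
      rw [Polynomial.eval_finsetSum, Finset.sum_smul]
      apply Finset.sum_congr rfl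
      intro c _
      split_ifs <;> simp
    simp only [h1]
    rw [Finset.sum_comm]
    apply Finset.sum_congr rfl
    intro c _
    rw [map_smul]
    by_cases hmem : sh i j c b ∈ U
    · rw [Finset.sum_eq_single (⟨sh i j c b, hmem⟩ : U)]
      · simp
      · intro m _ hne
        rw [if_neg]
        intro h
        exact hne (Subtype.ext h.symm)
      · intro h; exact absurd (Finset.mem_univ _) h
    · rw [hX _ hmem, smul_zero]
      symm
      apply Finset.sum_eq_zero
      intro m _
      rw [if_neg]
      intro h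
      exact hmem (h ▸ m.2)
  have hrel : ∀ e, e ∈ Ex k I y → ∑ m : U, (Φ e m).eval σ • W.mkQ (mon y' m) = 0 := by
    intro e he
    have h1 : W.mkQ (mon y e - ∑ d ∈ Dd e, γ e d • mon y d) = 0 := by
      rw [Submodule.mkQ_apply, Submodule.Quotient.mk_eq_zero]
      exact mem_sup_left (mem_sup_left (hγ e he))
    rw [map_sub, map_sum, hexp] at h1
    simp only [map_smul, hexp] at h1
    rw [← h1]
    simp only [Φ, Polynomial.eval_sub, Polynomial.eval_finsetSum, Polynomial.eval_mul,
      Polynomial.eval_C, sub_smul, Finset.sum_sub_distrib, Finset.sum_smul, Finset.smul_sum, mul_smul]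
    congr 1
    rw [Finset.sum_comm]
  have hu : (fun m : U => W.mkQ (mon y' m)) = 0 := by
    apply solve_zero (k := k) ((Polynomial.evalRingHom σ).mapMatrix M)
    · rw [← RingHom.map_det]; exact hσ
    · intro e
      simp only [RingHom.mapMatrix_apply, Matrix.map_apply, Polynomial.coe_evalRingHom, M,
        Matrix.of_apply]
      by_cases he : (e : Fin n → ℕ) = as
      · simp only [if_pos he]
        have h1 := hrel a ha
        have h2 : ∀ m : U, (Φ a m).eval σ • W.mkQ (mon y' m)
            = σ ^ (a i) • ((Ψ m).eval σ • W.mkQ (mon y' m)) := by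
          intro m
          rw [hΦΨ m m.2, Polynomial.eval_mul, Polynomial.eval_pow, Polynomial.eval_X, mul_smul]
        simp only [h2] at h1
        rw [← Finset.smul_sum] at h1
        exact (smul_eq_zero.1 h1).resolve_left (pow_ne_zero _ hσ0)
      · simp only [if_neg he]
        apply hrel
        rcases (Finset.mem_filter.1 e.2).2.2 with h4 | h4
        · exact h4
        · exact absurd h4 he
  have hWtop : W = ⊤ := by
    rw [eq_top_iff, ← hspan C' hdet']
    apply sup_le (le_sup_left.trans le_sup_left)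
    rw [span_le]
    rintro _ ⟨m, rfl⟩
    rw [SetLike.mem_coe, ← Submodule.Quotient.mk_eq_zero W]
    by_cases hm : m ∈ U
    · exact congrFun hu ⟨m, hm⟩
    · exact hX m hm
  have h1 := card_le_of_cov (I := I) (y := y') (a := as) T hWtop
    ((box n s).filter (fun b => b ∉ Ex k I y' ∧ lxe b as))
    (fun b hb => (Finset.mem_filter.1 hb).2)
  have h2 : T.card ≤ TT.card := Finset.card_image_le
  have h3 : TT.card < dl I x s C as := by
    unfold dl
    apply Finset.card_lt_card
    refine ⟨fun b hb => ?_, fun hsub => ?_⟩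
    · obtain ⟨g1, g2, _⟩ := Finset.mem_filter.1 hb
      exact Finset.mem_filter.2 ⟨g1, g2⟩
    · have := hsub (Finset.mem_filter.2 ⟨hasbox, hstar, lxe_refl _⟩)
      exact (Finset.mem_filter.1 this).2.2 rfl
  have h4 := hmin as hasbox C' hdet'
  have h5 : dl I x s C' as ≤ T.card := h1
  omega

end wb

end Pool.Agent.Q57.SL
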